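import Pool.Agent.W164.RC.Final

/-!
Euler factors at finitely many places.
-/

set_option autoImplicit false

open Complex NumberField IsDedekindDomain
open H385 (ZI RQ nrm)
open Pool.Agent.H921R2.TatePole (below deg nm nm_eq two_le_nm)

namespace Pool.Agent.W164.RC

/-- `1 - a n^(-s) + ε n^(1-2s)` -/
noncomputable def lpoly (a ε : ℤ) (n : ℕ) (s : ℂ) : ℂ :=
  1 - (a : ℂ) * (n : ℂ) ^ (-s) + (ε : ℂ) * (n : ℂ) ^ (1 - 2 * s)

/-- the values of `(a, ε)` which occur for an elliptic curve over a local field with residue field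
of `n` elements -/
def Poss (n : ℕ) (a ε : ℤ) : Prop := (ε = 1 ∧ a ^ 2 ≤ 4 * (n : ℤ)) ∨ (ε = 0 ∧ a ^ 2 ≤ 1)

theorem lpoly_diff (a ε : ℤ) {n : ℕ} (hn : 2 ≤ n) : Differentiable ℂ (lpoly a ε n) := by
  intro s
  have hn0 : (n : ℂ) ≠ 0 := Nat.cast_ne_zero.2 (by omega)
  unfold lpoly
  refine ((differentiableAt_const _).sub ((differentiableAt_const _).mul ?_)).add
    ((differentiableAt_const _).mul ?_)
  · exact (differentiableAt_id.neg).const_cpow (Or.inl hn0)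
  · exact ((differentiableAt_const _).sub ((differentiableAt_const _).mul
      differentiableAt_id)).const_cpow (Or.inl hn0)

theorem lpoly_ne {n : ℕ} (hn : 2 ≤ n) {a ε : ℤ} (h : Poss n a ε) {s : ℂ} (hs : 1 / 2 < s.re) :
    lpoly a ε n s ≠ 0 := by
  have hn0 : (0 : ℝ) < n := by exact_mod_cast (by omega : 0 < n)
  have hn1 : (1 : ℝ) < n := by exact_mod_cast (by omega : 1 < n)
  have hnc : (n : ℂ) ≠ 0 := Nat.cast_ne_zero.2 (by omega)
  have hX : ‖(n : ℂ) ^ (-s)‖ = (n : ℝ) ^ (-s.re) := by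
    rw [Complex.norm_natCast_cpow_of_pos (by omega), Complex.neg_re]
  rcases h with ⟨rfl, ha⟩ | ⟨rfl, ha⟩
  · -- good reduction
    have e1 : (n : ℂ) ^ (1 - 2 * s) = n * ((n : ℂ) ^ (-s)) ^ 2 :=
      Pool.Agent.H82R3.EK.prime_cpow n (by omega) s
    have hd : 0 ≤ 4 * (n : ℝ) - (a : ℝ) ^ 2 := by
      have : ((a ^ 2 : ℤ) : ℝ) ≤ ((4 * (n : ℤ) : ℤ) : ℝ) := by exact_mod_cast ha
      push_cast at this
      linarith
    obtain ⟨r, hr⟩ : ∃ r : ℝ, r = Real.sqrt (4 * (n : ℝ) - (a : ℝ) ^ 2) := ⟨_, rfl⟩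
    have hr2 : r ^ 2 = 4 * (n : ℝ) - (a : ℝ) ^ 2 := by rw [hr]; exact Real.sq_sqrt hd
    set α : ℂ := ((a : ℂ) + r * I) / 2 with hα
    set β : ℂ := ((a : ℂ) - r * I) / 2 with hβ
    have hab : α + β = a := by rw [hα, hβ]; ring
    have hr2c : (r : ℂ) ^ 2 = 4 * (n : ℂ) - (a : ℂ) ^ 2 := by
      have := congrArg (fun x : ℝ => (x : ℂ)) hr2
      push_cast at this
      exact this
    have hmul : α * β = n := by
      rw [hα, hβ]
      linear_combination (1 / 4 : ℂ) * hr2c - (1 / 4 : ℂ) * (r : ℂ) ^ 2 * Complex.I_sq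
    have hnα : ‖α‖ ^ 2 = n := by
      rw [← Complex.normSq_eq_norm_sq, Complex.normSq_apply, hα]
      have h1 : (((a : ℂ) + r * I) / 2).re = (a : ℝ) / 2 := by
        simp [Complex.add_re, Complex.mul_re]
      have h2 : (((a : ℂ) + r * I) / 2).im = r / 2 := by
        simp [Complex.add_im, Complex.mul_im]
      rw [h1, h2]
      linarith
    have hnβ : ‖β‖ ^ 2 = n := by
      rw [← Complex.normSq_eq_norm_sq, Complex.normSq_apply, hβ]
      have h1 : (((a : ℂ) - r * I) / 2).re = (a : ℝ) / 2 := by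
        simp [Complex.sub_re, Complex.mul_re]
      have h2 : (((a : ℂ) - r * I) / 2).im = -(r / 2) := by
        simp [Complex.sub_im, Complex.mul_im]
        ring
      rw [h1, h2]
      linarith
    have hfac : lpoly a 1 n s = (1 - α * (n : ℂ) ^ (-s)) * (1 - β * (n : ℂ) ^ (-s)) := by
      unfold lpoly
      rw [e1, ← hab]
      push_cast
      rw [← hmul]
      ring
    have hlt : ∀ γ : ℂ, ‖γ‖ ^ 2 = n → ‖γ * (n : ℂ) ^ (-s)‖ < 1 := by
      intro γ hγ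
      have h3 : ‖γ‖ = (n : ℝ) ^ (1 / 2 : ℝ) := by
        rw [← Real.sqrt_eq_rpow, ← hγ, Real.sqrt_sq (norm_nonneg _)]
      rw [norm_mul, hX, h3, ← Real.rpow_add hn0]
      exact Real.rpow_lt_one_of_one_lt_of_neg hn1 (by linarith)
    rw [hfac]
    exact mul_ne_zero (one_sub_ne (hlt α hnα)) (one_sub_ne (hlt β hnβ))
  · -- bad reduction
    have hfac : lpoly a 0 n s = 1 - (a : ℂ) * (n : ℂ) ^ (-s) := by
      unfold lpoly
      push_cast
      ring
    rw [hfac]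
    apply one_sub_ne
    rw [norm_mul, hX]
    have h1 : ‖(a : ℂ)‖ ≤ 1 := by
      rw [Complex.norm_intCast]
      have : ((a ^ 2 : ℤ) : ℝ) ≤ ((1 : ℤ) : ℝ) := by exact_mod_cast ha
      push_cast at this
      exact abs_le_one_iff_mul_self_le_one.2 (by nlinarith)
    have h2 : (n : ℝ) ^ (-s.re) < 1 := Real.rpow_lt_one_of_one_lt_of_neg hn1 (by linarith)
    have h3 : 0 ≤ (n : ℝ) ^ (-s.re) := by positivity
    nlinarith [norm_nonneg (a : ℂ)]

section
variable {K : Type} [Field K] [NumberField K]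

/-- the Frobenius trace at `v` of `y² = x³ - x` -/
noncomputable def tr (v : HeightOneSpectrum (𝓞 K)) : ℤ :=
  ((Ideal.absNorm v.asIdeal : ℕ) : ℤ) -
    ((Nat.card {p : (𝓞 K ⧸ v.asIdeal) × (𝓞 K ⧸ v.asIdeal) // p.2 ^ 2 = p.1 ^ 3 - p.1} : ℕ) : ℤ)

theorem eulerFactor_lpoly (s : ℂ) (v : HeightOneSpectrum (𝓞 K)) :
    eulerFactor s v = (lpoly (tr v) 1 (Ideal.absNorm v.asIdeal) s)⁻¹ := by
  unfold eulerFactor lpoly tr
  push_cast
  rw [one_mul]

theorem tr_poss (v : HeightOneSpectrum (𝓞 K)) (hv : (below v : ℕ) ≠ 2) :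
    Poss (Ideal.absNorm v.asIdeal) (tr v) 1 := by
  left
  refine ⟨rfl, ?_⟩
  have hv' : ¬ (below v : ℕ) ∣ 2 * 1 := by
    rw [mul_one, Nat.prime_dvd_prime_iff_eq (below v).2 Nat.prime_two]
    exact hv
  have h := Pool.Agent.H82R3.EK.trace_bound (D := 1) v hv'
  have h1 : Nat.card {x : (𝓞 K ⧸ v.asIdeal) × (𝓞 K ⧸ v.asIdeal) //
      x.2 ^ 2 = x.1 ^ 3 - ((1 : ℕ) : 𝓞 K ⧸ v.asIdeal) ^ 2 * x.1} =
      Nat.card {p : (𝓞 K ⧸ v.asIdeal) × (𝓞 K ⧸ v.asIdeal) // p.2 ^ 2 = p.1 ^ 3 - p.1} := by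
    apply Nat.card_congr
    refine Equiv.subtypeEquivRight (fun x => ?_)
    rw [Nat.cast_one, one_pow, one_mul]
  rw [h1] at h
  have h2 : |((tr v : ℤ) : ℝ)| ≤ 2 * Real.sqrt (Ideal.absNorm v.asIdeal : ℕ) := by
    rw [← Int.cast_abs]
    exact h
  have h3 : (((tr v : ℤ) : ℝ)) ^ 2 ≤ 4 * ((Ideal.absNorm v.asIdeal : ℕ) : ℝ) := by
    have h4 := pow_le_pow_left₀ (abs_nonneg _) h2 2
    rw [sq_abs, mul_pow, Real.sq_sqrt (Nat.cast_nonneg _)] at h4
    linarith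
  have h5 : (((tr v ^ 2 : ℤ)) : ℝ) ≤ ((4 * ((Ideal.absNorm v.asIdeal : ℕ) : ℤ) : ℤ) : ℝ) := by
    push_cast
    exact h3
  exact_mod_cast h5

/-- places above `x ≠ 0` -/
theorem places_finite {x : 𝓞 K} (hx : x ≠ 0) :
    {v : HeightOneSpectrum (𝓞 K) | x ∈ v.asIdeal}.Finite := by
  have h := Ideal.finite_factors (R := 𝓞 K) (I := Ideal.span {x}) (by
    rw [Ne, Ideal.zero_eq_bot, Ideal.span_singleton_eq_bot]
    exact hx)
  refine h.subset ?_
  intro v hv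
  show v.asIdeal ∣ Ideal.span {x}
  rw [Ideal.dvd_span_singleton]
  exact hv

/-- the number of points of the quartic twist by a fourth power -/
theorem card_twist {k : Type} [Field k] (d : k) (hd : d ≠ 0) :
    Nat.card {p : k × k // p.2 ^ 2 = p.1 ^ 3 - d ^ 4 * p.1} =
      Nat.card {p : k × k // p.2 ^ 2 = p.1 ^ 3 - p.1} := by
  have h1 : ∀ p : {p : k × k // p.2 ^ 2 = p.1 ^ 3 - p.1},
      (d ^ 3 * p.1.2) ^ 2 = (d ^ 2 * p.1.1) ^ 3 - d ^ 4 * (d ^ 2 * p.1.1) := by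
    intro p
    have := p.2
    linear_combination d ^ 6 * this
  have h2 : ∀ p : {p : k × k // p.2 ^ 2 = p.1 ^ 3 - d ^ 4 * p.1},
      (p.1.2 / d ^ 3) ^ 2 = (p.1.1 / d ^ 2) ^ 3 - p.1.1 / d ^ 2 := by
    intro p
    have := p.2
    field_simp
    linear_combination this
  exact (Nat.card_congr
    { toFun := fun p => ⟨(d ^ 2 * p.1.1, d ^ 3 * p.1.2), h1 p⟩
      invFun := fun p => ⟨(p.1.1 / d ^ 2, p.1.2 / d ^ 3), h2 p⟩
      left_inv := fun p => by
        apply Subtype.ext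
        refine Prod.ext ?_ ?_
        · show d ^ 2 * p.1.1 / d ^ 2 = p.1.1
          field_simp
        · show d ^ 3 * p.1.2 / d ^ 3 = p.1.2
          field_simp
      right_inv := fun p => by
        apply Subtype.ext
        refine Prod.ext ?_ ?_
        · show d ^ 2 * (p.1.1 / d ^ 2) = p.1.1
          field_simp
        · show d ^ 3 * (p.1.2 / d ^ 3) = p.1.2
          field_simp }).symm

end

end Pool.Agent.W164.RC
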