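import Pool.Agent.W164.RC.Unit
import Pool.Agent.H385R5.HE9

/-!
Products over the characters modulo `q` with `χ(i) = -i`.
-/

set_option autoImplicit false

open Complex
open H385 (ZI RQ im1 chiZ FQs phiQ nrm)
open Pool.Agent.H304R2.EC.A1 (prim prim_one)

namespace Pool.Agent.W164.RC

lemma hasSum_congr_fun {f g : ℕ → ℂ} {a : ℂ} (h : HasSum f a) (hfg : ∀ n, g n = f n) :
    HasSum g a := by
  rwa [show g = f from funext hfg]

theorem sum_FQ {q : ZI} (hq : q ≠ 0) (h2 : two2 ∣ q) {z : ZI} (hz : prim z) (hc : IsCoprime z q)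
    (f : ℕ) (hfk : ∀ k : ℕ, q ∣ z ^ k - 1 ↔ f ∣ k) (k : ℕ) :
    ∑ χ ∈ FQs q, chiZ q χ (z ^ k) = if f ∣ k then (phiQ q : ℂ) / 4 else 0 := by
  classical
  have h := H385.fq_orth q hq (z ^ k) 1 (hc.pow_left) isCoprime_one_left
  simp only [map_one, mul_one] at h
  rw [h]
  have hj : ∀ j ∈ Finset.range 4, j ≠ 0 → I ^ j *
      (if Ideal.Quotient.mk (Ideal.span {q}) (im1 ^ j * z ^ k) = 1 then (1 : ℂ) else 0) = 0 := by
    intro j hj hj0
    rw [if_neg, mul_zero]
    intro hh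
    rw [← map_one (Ideal.Quotient.mk (Ideal.span {q})), Ideal.Quotient.eq,
      Ideal.mem_span_singleton] at hh
    rw [Finset.mem_range] at hj
    have h4 : q ∣ z ^ k - im1 ^ (4 - j) := by
      have : z ^ k - im1 ^ (4 - j) = im1 ^ (4 - j) * (im1 ^ j * z ^ k - 1) := by
        have e : im1 ^ (4 - j) * im1 ^ j = 1 := by
          rw [← pow_add, Nat.sub_add_cancel (by omega)]
          exact H385.he2_im4
        linear_combination (-(z ^ k)) * e
      rw [this]
      exact hh.mul_left _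
    have h5 : (im1 ^ (4 - j)).norm = 1 := by
      interval_cases j
      · exact absurd rfl hj0
      · decide
      · decide
      · decide
    have h6 := prim_unit h2 (prim_pow hz k) h5 h4
    interval_cases j
    · exact hj0 rfl
    · exact absurd h6 (by decide)
    · exact absurd h6 (by decide)
    · exact absurd h6 (by decide)
  rw [Finset.sum_eq_single 0 hj (by simp)]
  simp only [pow_zero, one_mul]
  have h7 : (Ideal.Quotient.mk (Ideal.span {q}) (z ^ k) = 1) ↔ f ∣ k := by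
    rw [← hfk, ← map_one (Ideal.Quotient.mk (Ideal.span {q})), Ideal.Quotient.eq,
      Ideal.mem_span_singleton]
  simp only [h7]
  split_ifs <;> simp

/-- `∏_χ (1 - χ(z) Y) = (1 - Y^f)^N` -/
theorem prod_FQ {q : ZI} (hq : q ≠ 0) (h2 : two2 ∣ q) {z : ZI} (hz : prim z) (hc : IsCoprime z q)
    (f N : ℕ) (hf0 : 0 < f) (hfk : ∀ k : ℕ, q ∣ z ^ k - 1 ↔ f ∣ k) (hN : 4 * (N * f) = phiQ q)
    (Y : ℂ) (hY : ‖Y‖ < 1) :
    ∏ χ ∈ FQs q, (1 - chiZ q χ z * Y) = (1 - Y ^ f) ^ N := by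
  classical
  have hYf : ‖Y ^ f‖ < 1 := by
    rw [norm_pow]
    exact pow_lt_one₀ (norm_nonneg _) hY hf0.ne'
  have hχ : ∀ χ ∈ FQs q, ‖chiZ q χ z * Y‖ < 1 := by
    intro χ _
    rw [norm_mul, H385.he9_norm q hq χ z hc, one_mul]
    exact hY
  have h1 : HasSum (fun k : ℕ => ∑ χ ∈ FQs q, (chiZ q χ z * Y) ^ k / k)
      (∑ χ ∈ FQs q, -Complex.log (1 - chiZ q χ z * Y)) :=
    hasSum_sum fun χ h => Complex.hasSum_taylorSeries_neg_log (hχ χ h)
  have hphi : (phiQ q : ℂ) / 4 = N * f := by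
    rw [← hN]; push_cast; ring
  have h2' : ∀ k : ℕ, ∑ χ ∈ FQs q, (chiZ q χ z * Y) ^ k / k =
      if f ∣ k then ((N : ℂ) * f) * (Y ^ k / k) else 0 := by
    intro k
    have e1 : ∀ χ : MulChar (RQ q) ℂ, (chiZ q χ z * Y) ^ k / k =
        chiZ q χ (z ^ k) * (Y ^ k / k) := by
      intro χ
      rw [mul_pow, map_pow, mul_div_assoc]
    simp_rw [e1]
    rw [← Finset.sum_mul, sum_FQ hq h2 hz hc f hfk, hphi]
    split_ifs with hk
    · rfl
    · rw [zero_mul]
  have h3 : HasSum (fun j : ℕ => ((N : ℂ) * f) * (Y ^ (f * j) / ((f * j : ℕ) : ℂ)))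
      (∑ χ ∈ FQs q, -Complex.log (1 - chiZ q χ z * Y)) := by
    have hinj : Function.Injective (fun j : ℕ => f * j) :=
      fun i j h => Nat.eq_of_mul_eq_mul_left hf0 h
    have := (hinj.hasSum_iff (f := fun k : ℕ => ∑ χ ∈ FQs q, (chiZ q χ z * Y) ^ k / k)
      (a := ∑ χ ∈ FQs q, -Complex.log (1 - chiZ q χ z * Y)) (by
        intro k hk
        rw [h2', if_neg]
        rintro ⟨j, rfl⟩
        exact hk ⟨j, rfl⟩)).2 h1
    refine hasSum_congr_fun this (fun j => ?_)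
    show _ = ∑ χ ∈ FQs q, (chiZ q χ z * Y) ^ (f * j) / ((f * j : ℕ) : ℂ)
    rw [h2', if_pos (dvd_mul_right f j)]
  have h4 : HasSum (fun j : ℕ => ((N : ℂ) * f) * (Y ^ (f * j) / ((f * j : ℕ) : ℂ)))
      ((N : ℂ) * -Complex.log (1 - Y ^ f)) := by
    have := (Complex.hasSum_taylorSeries_neg_log hYf).mul_left (N : ℂ)
    refine hasSum_congr_fun this (fun j => ?_)
    have hf0' : (f : ℂ) ≠ 0 := by exact_mod_cast hf0.ne'
    rw [pow_mul]
    push_cast
    rcases eq_or_ne (j : ℂ) 0 with hj | hj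
    · rw [hj]; simp
    · field_simp
  have h5 := h3.unique h4
  have h6 : Complex.exp (∑ χ ∈ FQs q, Complex.log (1 - chiZ q χ z * Y)) =
      Complex.exp (N * Complex.log (1 - Y ^ f)) := by
    congr 1
    rw [Finset.sum_neg_distrib] at h5
    linear_combination -h5
  have hne : ∀ w : ℂ, ‖w‖ < 1 → 1 - w ≠ 0 := by
    intro w hw h
    have : w = 1 := by linear_combination -h
    rw [this] at hw
    simp at hw
  rw [Complex.exp_sum, Complex.exp_nat_mul, Complex.exp_log (hne _ hYf)] at h6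
  rw [← h6]
  apply Finset.prod_congr rfl
  intro χ h
  rw [Complex.exp_log (hne _ (hχ χ h))]

end Pool.Agent.W164.RC
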