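import Pool.Agent.H385R5.HE10
import Pool.Agent.H385R5.HE8c
import Pool.Agent.H385R2.NLowD
import Pool.Agent.H304R3.HK.Fin

/-!
Lower bound for the number of zeros of the L-functions of the family modulo `q`.
-/

set_option autoImplicit false

open Complex
open H370 (zset mult NN Nd Ns)
open H385 (ZI RQ im1 chiZ FQs phiQ nrm)
open Pool.Agent.H304R3.HK (tc HC LH aH one_le_norm_tc)

namespace Pool.Agent.W164.RC

theorem exp_two_ge (x : ℝ) (hx : 0 ≤ x) : 4 * x ^ 2 * Real.exp (-(2 * x)) ≤ 2 := by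
  rw [Real.exp_neg]
  have h1 := Real.quadratic_le_exp_of_nonneg (x := 2 * x) (by linarith)
  have h2 : 0 < Real.exp (2 * x) := Real.exp_pos _
  rw [← div_eq_mul_inv, div_le_iff₀ h2]
  nlinarith


/-- one L-function -/
theorem one_lower_aux (C K T ℓ lR lRT κ E N pi : ℝ) (hC : 0 < C) (hK : K = 32 * (C + 1))
    (hT0 : 0 < T) (hℓ0 : 0 ≤ ℓ) (hκ : κ = T / K) (hpi : 0 < pi)
    (hub : lRT ≤ 2 * ℓ) (hlb : lR ≤ lRT) (h0 : 0 ≤ lRT) (hE0 : 0 ≤ E)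
    (hE : 4 * ℓ ^ 2 * E ≤ 2)
    (key : T / (2 * pi) * (2 * lRT) - C * (T + κ * lRT + T * lRT ^ 2 * E) ≤ N) :
    T / pi * lR - (3 * C * T + T * ℓ / 16) ≤ N := by
  have e1 : T / (2 * pi) * (2 * lRT) = T / pi * lRT := by
    field_simp
  rw [e1] at key
  have e2 : T / pi * lR ≤ T / pi * lRT :=
    mul_le_mul_of_nonneg_left hlb (by positivity)
  have hK0 : 0 < K := by rw [hK]; linarith
  have hκ0 : 0 ≤ κ := by rw [hκ]; positivity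
  have e3 : κ * lRT ≤ T * ℓ / (16 * (C + 1)) := by
    have h1 : κ * lRT ≤ κ * (2 * ℓ) := mul_le_mul_of_nonneg_left hub hκ0
    have h2 : κ * (2 * ℓ) = T * ℓ / (16 * (C + 1)) := by
      rw [hκ, hK]
      field_simp
      ring
    rw [← h2]
    exact h1
  have hTℓ : 0 ≤ T * ℓ := mul_nonneg hT0.le hℓ0
  have e4 : C * (T * ℓ / (16 * (C + 1))) ≤ T * ℓ / 16 := by
    rw [mul_div_assoc', div_le_div_iff₀ (by positivity) (by norm_num)]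
    nlinarith only [hTℓ, hC]
  have e5 : T * lRT ^ 2 * E ≤ 2 * T := by
    have h5 : lRT ^ 2 ≤ 4 * ℓ ^ 2 := by
      have := pow_le_pow_left₀ h0 hub 2
      linarith only [this]
    have h6 : T * lRT ^ 2 * E ≤ T * (4 * ℓ ^ 2) * E :=
      mul_le_mul_of_nonneg_right (mul_le_mul_of_nonneg_left h5 hT0.le) hE0
    have h7 : T * (4 * ℓ ^ 2) * E = T * (4 * ℓ ^ 2 * E) := by ring
    have h8 : T * (4 * ℓ ^ 2 * E) ≤ T * 2 := mul_le_mul_of_nonneg_left hE hT0.le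
    linarith only [h6, h7, h8]
  have h6 : C * (κ * lRT) ≤ T * ℓ / 16 :=
    (mul_le_mul_of_nonneg_left e3 hC.le).trans e4
  have h7 : C * (T * lRT ^ 2 * E) ≤ C * (2 * T) :=
    mul_le_mul_of_nonneg_left e5 hC.le
  have h8 : C * (T + κ * lRT + T * lRT ^ 2 * E) = C * T + C * (κ * lRT) +
      C * (T * lRT ^ 2 * E) := by ring
  have h9 : C * (2 * T) = 2 * (C * T) := by ring
  have h10 : 3 * C * T = 3 * (C * T) := by ring
  rw [h8] at key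
  rw [h10]
  rw [h9] at h7
  linarith only [h6, h7, key, e2]

theorem final_aux (C C2 T ℓ n S pi : ℝ) (hC : 0 < C) (hC2 : 0 < C2) (hT0 : 0 < T) (hn0 : 0 ≤ n)
    (hℓ0 : 0 ≤ ℓ) (hℓL : 12 * (1 + C2 + 3 * C) ≤ ℓ) (hpi : 0 < pi) (hpi4 : pi < 3.15)
    (hc : n * ℓ - S ≤ (1 / 2 * ℓ + C2) * n) :
    T * n ≤ T / pi * S - n * (3 * C * T + T * ℓ / 16) := by
  have hS1 : n * (ℓ / 2 - C2) ≤ S := by
    have : (1 / 2 * ℓ + C2) * n = n * ℓ - n * (ℓ / 2 - C2) := by ring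
    rw [this] at hc
    linarith only [hc]
  have hS2 : T / pi * (n * (ℓ / 2 - C2)) ≤ T / pi * S :=
    mul_le_mul_of_nonneg_left hS1 (by positivity)
  have hfin : T * n + n * (3 * C * T + T * ℓ / 16) ≤ T / pi * (n * (ℓ / 2 - C2)) := by
    have h8 : T / pi * (n * (ℓ / 2 - C2)) = (T * n) * ((ℓ / 2 - C2) / pi) := by
      field_simp
    have h9 : T * n + n * (3 * C * T + T * ℓ / 16) = (T * n) * (1 + 3 * C + ℓ / 16) := by ring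
    rw [h8, h9]
    apply mul_le_mul_of_nonneg_left _ (by positivity)
    rw [le_div_iff₀ hpi]
    have h11 : 0 ≤ 1 + 3 * C + ℓ / 16 := by positivity
    have h12 : (1 + 3 * C + ℓ / 16) * pi ≤ (1 + 3 * C + ℓ / 16) * 3.15 :=
      mul_le_mul_of_nonneg_left hpi4.le h11
    linarith only [h12, hℓL, hC, hC2]
  linarith only [hS2, hfin]

theorem fam_lower (cd : (q : ZI) → MulChar (RQ q) ℂ → ZI)
    (pr : (q : ZI) → MulChar (RQ q) ℂ → (ZI →* ℂ))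
    (hprim : ∀ q : ZI, q ≠ 0 → ∀ χ ∈ FQs q, cd q χ ∣ q ∧ HC (cd q χ) (pr q χ) ∧
      ∀ a : ZI, IsCoprime a q → pr q χ a = chiZ q χ a) :
    ∃ C1 : ℝ, 1 ≤ C1 ∧ ∀ (q : ZI) (T : ℝ), q ≠ 0 →
      C1 * (1 + Real.sqrt (Real.log ‖tc q‖)) ≤ T → T ≤ ‖tc q‖ →
      T * ((FQs q).card : ℝ) ≤ ∑ χ ∈ FQs q, (NN (LH (pr q χ)) T (2 * T) : ℝ) := by
  obtain ⟨A, hA, hgood⟩ := Pool.Agent.H304R3.HK.goodH
  obtain ⟨C, hC, hlow⟩ := H385.N_lower_D 2 A (by norm_num) hA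
  obtain ⟨C2, hC2, hcond⟩ := H385.he_cond cd pr hprim (1 / 2) (by norm_num)
  obtain ⟨K, hK⟩ : ∃ K : ℝ, K = 32 * (C + 1) := ⟨_, rfl⟩
  obtain ⟨L0, hL0⟩ : ∃ L0 : ℝ, L0 = 12 * (1 + C2 + 3 * C) := ⟨_, rfl⟩
  have hK32 : 32 ≤ K := by rw [hK]; linarith
  obtain ⟨C1, hC1⟩ : ∃ C1 : ℝ, C1 = max (3 * K) (Real.exp L0) := ⟨_, rfl⟩
  have hC1a : 3 * K ≤ C1 := by rw [hC1]; exact le_max_left _ _
  have hC1b : Real.exp L0 ≤ C1 := by rw [hC1]; exact le_max_right _ _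
  refine ⟨C1, by linarith, ?_⟩
  intro q T hq hT1 hT2
  obtain ⟨Q, hQ⟩ : ∃ Q : ℝ, Q = ‖tc q‖ := ⟨_, rfl⟩
  obtain ⟨ℓ, hℓ⟩ : ∃ ℓ : ℝ, ℓ = Real.log ‖tc q‖ := ⟨_, rfl⟩
  have hQ1 : 1 ≤ ‖tc q‖ := one_le_norm_tc hq
  have hℓ0 : 0 ≤ ℓ := by rw [hℓ]; exact Real.log_nonneg hQ1
  rw [← hℓ] at hT1
  have hs0 : 0 ≤ Real.sqrt ℓ := Real.sqrt_nonneg _
  have hTC : C1 ≤ T := by nlinarith only [hT1, hs0, hC1a, hK32]
  have hT3K : 3 * K ≤ T := hC1a.trans hTC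
  have hT1' : 1 ≤ T := by linarith
  have hT0 : 0 < T := by linarith
  have hℓL : L0 ≤ ℓ := by
    rw [hℓ, Real.le_log_iff_exp_le (by linarith)]
    linarith
  have hlogT : Real.log T ≤ ℓ := by rw [hℓ]; exact Real.log_le_log hT0 hT2
  have hlogT0 : 0 ≤ Real.log T := Real.log_nonneg hT1'
  obtain ⟨κ, hκ⟩ : ∃ κ : ℝ, κ = T / K := ⟨_, rfl⟩
  have hK0 : 0 < K := by linarith
  have hκ3 : 3 ≤ κ := by
    rw [hκ, le_div_iff₀ hK0]; exact hT3K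
  have hκ8 : 8 * κ ≤ T := by
    rw [hκ, mul_div_assoc', div_le_iff₀ hK0]
    nlinarith only [hK32, hT0]
  have hκ2 : 2 * ℓ ≤ κ ^ 2 / 2 := by
    have h1 : 2 * Real.sqrt ℓ ≤ κ := by
      rw [hκ, le_div_iff₀ hK0]
      have h2 : C1 * Real.sqrt ℓ ≤ T := by nlinarith only [hT1, hs0, hC1a, hK32]
      have h3 : 3 * K * Real.sqrt ℓ ≤ C1 * Real.sqrt ℓ := mul_le_mul_of_nonneg_right hC1a hs0
      have h4 : 0 ≤ K * Real.sqrt ℓ := mul_nonneg hK0.le hs0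
      linarith only [h2, h3, h4]
    have h2 := Real.sq_sqrt hℓ0
    nlinarith only [h1, h2, hs0]
  have hexp : Real.exp (-κ ^ 2 / 2) ≤ Real.exp (-(2 * ℓ)) := by
    apply Real.exp_le_exp.2
    linarith only [hκ2]
  have hex2 := exp_two_ge ℓ hℓ0
  have hE : 4 * ℓ ^ 2 * Real.exp (-κ ^ 2 / 2) ≤ 2 :=
    (mul_le_mul_of_nonneg_left hexp (by positivity)).trans hex2
  have hone : ∀ χ ∈ FQs q, T / Real.pi * Real.log ‖tc (cd q χ)‖ - (3 * C * T + T * ℓ / 16) ≤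
      (NN (LH (pr q χ)) T (2 * T) : ℝ) := by
    intro χ hχ
    obtain ⟨h1, h2, h3⟩ := hprim q hq χ hχ
    obtain ⟨g1, g2, g3, g4⟩ := hgood _ _ h2
    have hR1 : 1 ≤ ‖tc (cd q χ)‖ := one_le_norm_tc h2.q0
    have hRQ : ‖tc (cd q χ)‖ ≤ ‖tc q‖ := H385.norm_tc_le_of_dvd _ _ hq h1
    have hlogR : Real.log (‖tc (cd q χ)‖ * T) = Real.log ‖tc (cd q χ)‖ + Real.log T :=
      Real.log_mul (by linarith) (by linarith)
    have hlR0 : 0 ≤ Real.log ‖tc (cd q χ)‖ := Real.log_nonneg hR1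
    have hlR : Real.log ‖tc (cd q χ)‖ ≤ ℓ := by
      rw [hℓ]; exact Real.log_le_log (by linarith) hRQ
    exact one_lower_aux C K T ℓ _ _ κ _ _ Real.pi hC hK hT0 hℓ0 hκ Real.pi_pos
      (by rw [hlogR]; linarith) (by rw [hlogR]; linarith) (by rw [hlogR]; linarith)
      (Real.exp_pos _).le hE (hlow _ _ _ hR1 g4 T κ hκ3 hκ8)
  refine le_trans ?_ (Finset.sum_le_sum hone)
  rw [Finset.sum_sub_distrib, ← Finset.mul_sum, Finset.sum_const, nsmul_eq_mul]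
  have hc := hcond q hq
  rw [Finset.sum_sub_distrib, Finset.sum_const, nsmul_eq_mul, ← hℓ] at hc
  exact final_aux C C2 T ℓ _ _ Real.pi hC hC2 hT0 (Nat.cast_nonneg _) hℓ0 (by rw [← hL0]; exact hℓL)
    Real.pi_pos Real.pi_lt_d2 hc

end Pool.Agent.W164.RC
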