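import Pool.Agent.W164.RC.Euler2
import Pool.Agent.W164.RC.Lower
import Pool.Agent.H82R3.EK.Count

/-!
Counting the zeros of the product of all the L-functions of the family.
-/

set_option autoImplicit false

open Complex Filter Topology Set
open H370 (zset mult NN Nd Ns)
open H385 (ZI RQ im1 chiZ FQs phiQ nrm)
open Pool.Agent.H82R3.EK (cnt cnt_prod NN_eq Ns_le strip line)
open Pool.Agent.H304R3.HK (tc HC LH aH psi uh_psi one_le_norm_tc goodH)

namespace Pool.Agent.W164.RC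

theorem order_mul_ne {f g : ℂ → ℂ} {s : ℂ} (hf : AnalyticAt ℂ f s) (hg : AnalyticAt ℂ g s)
    (h0 : g s ≠ 0) : analyticOrderAt (fun z => f z * g z) s = analyticOrderAt f s := by
  have h1 : analyticOrderAt (f * g) s = analyticOrderAt f s + analyticOrderAt g s :=
    analyticOrderAt_mul hf hg
  have h2 : analyticOrderAt g s = 0 := hg.analyticOrderAt_eq_zero.mpr h0
  rw [h2, add_zero] at h1
  exact h1

theorem cnt_mul_ne {f g : ℂ → ℂ} {W : Set ℂ} (hf : ∀ s ∈ W, AnalyticAt ℂ f s)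
    (hg : ∀ s ∈ W, AnalyticAt ℂ g s) (h0 : ∀ s ∈ W, g s ≠ 0) :
    cnt (fun z => f z * g z) W = cnt f W := by
  unfold cnt
  have hset : {s : ℂ | s ∈ W ∧ f s * g s = 0} = {s : ℂ | s ∈ W ∧ f s = 0} := by
    ext s
    simp only [Set.mem_ofPred_eq]
    constructor
    · rintro ⟨h1, h2⟩
      exact ⟨h1, (mul_eq_zero.1 h2).resolve_right (h0 s h1)⟩
    · rintro ⟨h1, h2⟩
      exact ⟨h1, by rw [h2, zero_mul]⟩
  rw [hset]
  refine finsum_mem_congr rfl fun s hs => ?_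
  unfold mult analyticOrderNatAt
  rw [order_mul_ne (hf s hs.1) (hg s hs.1) (h0 s hs.1)]

theorem cnt_mul {f g : ℂ → ℂ} {W : Set ℂ} (hf : ∀ s ∈ W, AnalyticAt ℂ f s)
    (hg : ∀ s ∈ W, AnalyticAt ℂ g s) (tf : ∀ s ∈ W, analyticOrderAt f s ≠ ⊤)
    (tg : ∀ s ∈ W, analyticOrderAt g s ≠ ⊤) (ff : {s : ℂ | s ∈ W ∧ f s = 0}.Finite)
    (fg : {s : ℂ | s ∈ W ∧ g s = 0}.Finite) :
    cnt (fun z => f z * g z) W = cnt f W + cnt g W := by
  have h := cnt_prod (Finset.univ : Finset Bool) (fun b => if b then f else g) (W := W)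
    (fun b _ s hs => by cases b <;> simp [hf s hs, hg s hs])
    (fun b _ s hs => by
      cases b
      · simpa using tg s hs
      · simpa using tf s hs)
    (fun b _ => by
      cases b
      · simpa using fg
      · simpa using ff)
  rw [Fintype.sum_bool] at h
  simp only [Fintype.prod_bool, if_true, Bool.false_eq_true, if_false] at h
  exact h

section
variable (cd : (q : ZI) → MulChar (RQ q) ℂ → ZI)
    (pr : (q : ZI) → MulChar (RQ q) ℂ → (ZI →* ℂ))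
    (hprim : ∀ q : ZI, q ≠ 0 → ∀ χ ∈ FQs q, cd q χ ∣ q ∧ HC (cd q χ) (pr q χ) ∧
      ∀ a : ZI, IsCoprime a q → pr q χ a = chiZ q χ a)

include hprim

theorem FE_diff {q : ZI} (hq : q ≠ 0) : Differentiable ℂ (FE pr q) := by
  obtain ⟨A, hA, hgood⟩ := goodH
  have h0 : FE pr q = fun s => ∏ χ ∈ FQs q, (LH (pr q χ) s * Cq q (psi (pr q χ)) s) := rfl
  rw [h0]
  apply Differentiable.fun_finsetProd
  intro χ hχ
  exact (hgood _ _ (hprim q hq χ hχ).2.1).1.mul (Cq_diff q _)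

/-- the properties of the factors -/
theorem fac_props {q : ZI} (hq : q ≠ 0) {T : ℝ} (hT : 1 ≤ T) : ∀ χ ∈ FQs q,
    (∀ s, AnalyticAt ℂ (LH (pr q χ)) s) ∧ (∀ s, analyticOrderAt (LH (pr q χ)) s ≠ ⊤) ∧
    (zset (LH (pr q χ)) T (2 * T)).Finite := by
  obtain ⟨A, hA, hgood⟩ := goodH
  intro χ hχ
  obtain ⟨h1, h2, h3⟩ := hprim q hq χ hχ
  obtain ⟨g1, g2, g3, g4⟩ := hgood _ _ h2
  refine ⟨fun s => g1.analyticAt s, fun s => ?_, ?_⟩
  · have h4 : LH (pr q χ) (⟨2, 1⟩ : ℂ) ≠ 0 := g4.nzr _ (by norm_num) (by norm_num)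
    exact H370.Loc.order_ne_top (K := Set.univ) isPreconnected_univ
      (fun z _ => g1.analyticAt z) (Set.mem_univ _) h4 (Set.mem_univ s)
  · exact H385.zset_finite_D hA (one_le_norm_tc h2.q0) g4 T (2 * T) hT

theorem FE_cnt {q : ZI} (hq : q ≠ 0) {T : ℝ} (hT : 1 ≤ T) {W : Set ℂ}
    (hW : W ⊆ strip T (2 * T)) :
    cnt (FE pr q) W = ∑ χ ∈ FQs q, cnt (LH (pr q χ)) W ∧
    (∀ s ∈ W, analyticOrderAt (FE pr q) s ≠ ⊤) ∧ {s : ℂ | s ∈ W ∧ FE pr q s = 0}.Finite := by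
  classical
  have hp := fac_props cd pr hprim hq hT
  have hre : ∀ s ∈ W, 0 < s.re := fun s hs => (hW hs).1
  have hC : ∀ χ ∈ FQs q, ∀ s ∈ W, Cq q (psi (pr q χ)) s ≠ 0 := fun χ hχ s hs =>
    Cq_ne q (uh_psi _ _ (hprim q hq χ hχ).2.1) (hre s hs)
  have han : ∀ χ ∈ FQs q, ∀ s ∈ W,
      AnalyticAt ℂ (fun z => LH (pr q χ) z * Cq q (psi (pr q χ)) z) s :=
    fun χ hχ s _ => ((hp χ hχ).1 s).mul ((Cq_diff q _).analyticAt s)
  have hord : ∀ χ ∈ FQs q, ∀ s ∈ W,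
      analyticOrderAt (fun z => LH (pr q χ) z * Cq q (psi (pr q χ)) z) s ≠ ⊤ := by
    intro χ hχ s hs
    rw [order_mul_ne ((hp χ hχ).1 s) ((Cq_diff q _).analyticAt s) (hC χ hχ s hs)]
    exact (hp χ hχ).2.1 s
  have hset : ∀ χ ∈ FQs q, {s : ℂ | s ∈ W ∧ LH (pr q χ) s * Cq q (psi (pr q χ)) s = 0}.Finite := by
    intro χ hχ
    refine (hp χ hχ).2.2.subset ?_
    rintro s ⟨h1, h2⟩
    have h3 := (mul_eq_zero.1 h2).resolve_right (hC χ hχ s h1)
    obtain ⟨a, b, c, d⟩ := hW h1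
    exact ⟨a, b, c, d, h3⟩
  refine ⟨?_, ?_, ?_⟩
  · have h := cnt_prod (FQs q) (fun χ z => LH (pr q χ) z * Cq q (psi (pr q χ)) z) han hord hset
    have h0 : FE pr q = fun s => ∏ χ ∈ FQs q, (LH (pr q χ) s * Cq q (psi (pr q χ)) s) := rfl
    rw [h0, h]
    refine Finset.sum_congr rfl fun χ hχ => ?_
    exact cnt_mul_ne (fun s _ => (hp χ hχ).1 s) (fun s _ => (Cq_diff q _).analyticAt s) (hC χ hχ)
  · intro s hs
    have h := Pool.Agent.H82R3.EK.mult_prod (FQs q)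
      (fun χ z => LH (pr q χ) z * Cq q (psi (pr q χ)) z) (s := s)
      (fun χ hχ => han χ hχ s hs) (fun χ hχ => hord χ hχ s hs)
    exact h.2.1
  · have hunion : (⋃ χ ∈ FQs q,
        {s : ℂ | s ∈ W ∧ LH (pr q χ) s * Cq q (psi (pr q χ)) s = 0}).Finite :=
      Set.Finite.biUnion (FQs q).finite_toSet hset
    refine hunion.subset ?_
    rintro s ⟨h1, h2⟩
    unfold FE at h2
    rw [Finset.prod_eq_zero_iff] at h2
    obtain ⟨χ, hχ, h3⟩ := h2
    exact Set.mem_biUnion hχ ⟨h1, h3⟩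

/-- the zeros of the product -/
theorem tot_cnt {q : ZI} (hq : q ≠ 0) {T : ℝ} (hT : 1 ≤ T) :
    cnt (fun z => FE pr q z * FE pr (star q) z) (strip T (2 * T)) =
      ∑ χ ∈ FQs q, NN (LH (pr q χ)) T (2 * T) +
      ∑ χ ∈ FQs (star q), NN (LH (pr (star q) χ)) T (2 * T) ∧
    ∑ χ ∈ FQs q, Ns (LH (pr q χ)) T (2 * T) +
      ∑ χ ∈ FQs (star q), Ns (LH (pr (star q) χ)) T (2 * T) ≤
      cnt (fun z => FE pr q z * FE pr (star q) z) (line T (2 * T)) ∧
    {s : ℂ | s ∈ strip T (2 * T) ∧ FE pr q s * FE pr (star q) s = 0}.Finite := by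
  have hq' : star q ≠ 0 := fun h => hq (by rw [← star_star q, h, star_zero])
  have hline : line T (2 * T) ⊆ strip T (2 * T) := by
    rintro s ⟨h1, h2, h3⟩
    exact ⟨by rw [h1]; norm_num, by rw [h1]; norm_num, h2, h3⟩
  have hd1 := FE_diff cd pr hprim hq
  have hd2 := FE_diff cd pr hprim hq'
  have key : ∀ W : Set ℂ, W ⊆ strip T (2 * T) →
      cnt (fun z => FE pr q z * FE pr (star q) z) W = ∑ χ ∈ FQs q, cnt (LH (pr q χ)) W +
        ∑ χ ∈ FQs (star q), cnt (LH (pr (star q) χ)) W := by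
    intro W hW
    obtain ⟨a1, a2, a3⟩ := FE_cnt cd pr hprim hq hT hW
    obtain ⟨b1, b2, b3⟩ := FE_cnt cd pr hprim hq' hT hW
    rw [cnt_mul (fun s _ => hd1.analyticAt s) (fun s _ => hd2.analyticAt s) a2 b2 a3 b3, a1, b1]
  refine ⟨?_, ?_, ?_⟩
  · rw [key _ subset_rfl]
    congr 1
    · exact Finset.sum_congr rfl fun χ _ => (NN_eq _ _ _).symm
    · exact Finset.sum_congr rfl fun χ _ => (NN_eq _ _ _).symm
  · rw [key _ hline]
    refine add_le_add ?_ ?_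
    · exact Finset.sum_le_sum fun χ hχ => Ns_le _ _ _ (fac_props cd pr hprim hq hT χ hχ).2.2
    · exact Finset.sum_le_sum fun χ hχ => Ns_le _ _ _ (fac_props cd pr hprim hq' hT χ hχ).2.2
  · obtain ⟨a1, a2, a3⟩ := FE_cnt cd pr hprim hq hT (W := strip T (2 * T)) subset_rfl
    obtain ⟨b1, b2, b3⟩ := FE_cnt cd pr hprim hq' hT (W := strip T (2 * T)) subset_rfl
    refine (a3.union b3).subset ?_
    rintro s ⟨h1, h2⟩
    rcases mul_eq_zero.1 h2 with h | h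
    · exact Or.inl ⟨h1, h⟩
    · exact Or.inr ⟨h1, h⟩

end

end Pool.Agent.W164.RC
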