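import Mathlib

/-!
Euler product of a Dirichlet series with multiplicative coefficients satisfying a recursion of order
two at the powers of every prime.
-/

set_option autoImplicit false

open Complex

namespace Pool.Agent.W164.RC

/-- local factor identity -/
theorem local_factor (a : ℕ → ℂ) (u v : ℂ) (h0 : a 0 = 1) (h1 : a 1 = u)
    (hrec : ∀ k, a (k + 2) = u * a (k + 1) - v * a k) (hs : Summable a) :
    (1 - u + v) * ∑' k, a k = 1 := by
  have e1 : ∑' k, a k = a 0 + ∑' k, a (k + 1) := hs.tsum_eq_zero_add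
  have hs1 : Summable (fun k => a (k + 1)) := (summable_nat_add_iff 1).mpr hs
  have e2 : ∑' k, a (k + 1) = a 1 + ∑' k, a (k + 2) := hs1.tsum_eq_zero_add
  have e3 : ∑' k, a (k + 2) = u * ∑' k, a (k + 1) - v * ∑' k, a k := by
    rw [← tsum_mul_left, ← tsum_mul_left, ← (hs1.mul_left u).tsum_sub (hs.mul_left v)]
    exact tsum_congr hrec
  rw [h0] at e1
  rw [h1] at e2
  linear_combination (1 - u) * e1 + e2 + e3

theorem pow_cpow' (p n : ℕ) (s : ℂ) : (((p ^ n : ℕ) : ℂ)) ^ s = ((p : ℂ) ^ s) ^ n := by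
  induction n with
  | zero => simp
  | succ n ih =>
    rw [pow_succ, pow_succ, ← ih]
    have := Complex.natCast_mul_natCast_cpow (p ^ n) p s
    push_cast at this ⊢
    exact this

theorem ep_general (b e : ℕ → ℂ) (b0 : b 0 = 0) (b1 : b 1 = 1)
    (hmul : ∀ m n : ℕ, Nat.Coprime m n → b (m * n) = b m * b n)
    (hrec : ∀ p : ℕ, p.Prime → ∀ k : ℕ,
      b (p ^ (k + 2)) = b p * b (p ^ (k + 1)) - e p * b (p ^ k))
    (s F : ℂ) (hsum : HasSum (fun n : ℕ => b n * (n : ℂ) ^ (-s)) F) :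
    HasProd (fun p : Nat.Primes =>
      (1 - b p * ((p : ℕ) : ℂ) ^ (-s) + e p * (((p : ℕ) : ℂ) ^ (-s)) ^ 2)⁻¹) F := by
  set g : ℕ → ℂ := fun n => b n * (n : ℂ) ^ (-s) with hg
  have hf1 : g 1 = 1 := by simp [hg, b1]
  have hf0 : g 0 = 0 := by simp [hg, b0]
  have hmul' : ∀ {m n : ℕ}, m.Coprime n → g (m * n) = g m * g n := by
    intro m n hmn
    rw [hg]
    simp only
    rw [hmul m n hmn]
    push_cast
    rw [Complex.natCast_mul_natCast_cpow]
    ring
  have hprod := EulerProduct.eulerProduct_hasProd hf1 hmul' hsum.summable.norm hf0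
  rw [hsum.tsum_eq] at hprod
  have hloc : ∀ p : Nat.Primes, ∑' k : ℕ, g ((p : ℕ) ^ k) =
      (1 - b p * ((p : ℕ) : ℂ) ^ (-s) + e p * (((p : ℕ) : ℂ) ^ (-s)) ^ 2)⁻¹ := by
    intro p
    have hp := p.2
    have hpow : Summable (fun k : ℕ => g ((p : ℕ) ^ k)) :=
      hsum.summable.comp_injective (Nat.pow_right_injective hp.two_le)
    have hval : ∀ k : ℕ, g ((p : ℕ) ^ k) = b ((p : ℕ) ^ k) * (((p : ℕ) : ℂ) ^ (-s)) ^ k := by
      intro k
      rw [hg]
      simp only
      rw [pow_cpow']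
    have key := local_factor (fun k => g ((p : ℕ) ^ k)) (b p * ((p : ℕ) : ℂ) ^ (-s))
      (e p * (((p : ℕ) : ℂ) ^ (-s)) ^ 2)
      (by simpa using hf1) (by
        have := hval 1
        rw [pow_one, pow_one] at this
        simp only [pow_one]
        exact this) (by
        intro k
        simp only [hval]
        rw [hrec p hp k]
        ring) hpow
    exact eq_inv_of_mul_eq_one_right key
  have e' : (fun p : Nat.Primes => ∑' k : ℕ, g ((p : ℕ) ^ k)) = _ := funext hloc
  rw [e'] at hprod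
  exact hprod

end Pool.Agent.W164.RC
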