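import Mathlib

/-!
Splitting of primes in an extension given by a finite group of automorphisms, unramified case.
-/

set_option autoImplicit false

open Ideal
open scoped Pointwise

namespace Pool.Agent.W164.RC

theorem split_abs {A B : Type} [CommRing A] [CommRing B] [Algebra A B] (G : Type) [Group G]
    [Finite G] [MulSemiringAction G B] [SMulCommClass G A B] [Algebra.IsInvariant A B G]
    (p : Ideal A) [p.IsMaximal] (P : Ideal B) [P.IsMaximal] [P.LiesOver p]
    [Finite (A ⧸ p)] [Finite (B ⧸ P)]
    (hin : ∀ g : G, (∀ x : B, g • x - x ∈ P) → g = 1)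
    (σ : G) (hσ : ∀ x : B, σ • x - x ^ Nat.card (A ⧸ p) ∈ P) :
    Nat.card (B ⧸ P) = Nat.card (A ⧸ p) ^ orderOf σ ∧
      (p.primesOver B).ncard * orderOf σ = Nat.card G := by
  classical
  letI : Field (A ⧸ p) := Ideal.Quotient.field p
  letI : Field (B ⧸ P) := Ideal.Quotient.field P
  letI : Fintype (A ⧸ p) := Fintype.ofFinite _
  letI : Fintype (B ⧸ P) := Fintype.ofFinite _
  set Q := Nat.card (A ⧸ p) with hQ
  have hQ1 : 1 < Q := Finite.one_lt_card
  -- powers of Frobenius
  have hpow : ∀ (k : ℕ) (x : B), Ideal.Quotient.mk P ((σ ^ k) • x) =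
      (Ideal.Quotient.mk P x) ^ (Q ^ k) := by
    intro k
    induction k with
    | zero => intro x; simp
    | succ k ih =>
      intro x
      have h1 := hσ ((σ ^ k) • x)
      rw [← Ideal.Quotient.eq, map_pow, ih] at h1
      rw [pow_succ', mul_smul, h1, ← pow_mul, pow_succ]
  set f := Module.finrank (A ⧸ p) (B ⧸ P) with hf
  have hf0 : 0 < f := Module.finrank_pos
  have hcard : Nat.card (B ⧸ P) = Q ^ f := by
    have h := Module.card_eq_pow_finrank (K := A ⧸ p) (V := B ⧸ P)
    rw [Nat.card_eq_fintype_card, h, hQ, Nat.card_eq_fintype_card]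
  have h1 : σ ^ f = 1 := by
    apply hin
    intro x
    rw [← Ideal.Quotient.eq, hpow, ← hcard, Nat.card_eq_fintype_card, FiniteField.pow_card]
  have h2 : ∀ k : ℕ, 0 < k → σ ^ k = 1 → f ≤ k := by
    intro k hk hσk
    have h3 : ∀ u : (B ⧸ P)ˣ, u ^ (Q ^ k - 1) = 1 := by
      intro u
      obtain ⟨x, hx⟩ := Ideal.Quotient.mk_surjective (u : B ⧸ P)
      have h4 := hpow k x
      rw [hσk, one_smul, hx] at h4
      have h5 : (u : B ⧸ P) ^ (Q ^ k - 1) = 1 := by
        have h6 : (u : B ⧸ P) * (u : B ⧸ P) ^ (Q ^ k - 1) = (u : B ⧸ P) * 1 := by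
          rw [← pow_succ', Nat.sub_add_cancel (Nat.one_le_pow _ _ (by omega)), mul_one]
          exact h4.symm
        exact mul_left_cancel₀ u.ne_zero h6
      ext
      push_cast
      exact h5
    have h4 := Monoid.exponent_dvd_of_forall_pow_eq_one h3
    rw [IsCyclic.exponent_eq_card, Nat.card_units, hcard] at h4
    have h5 : 0 < Q ^ k - 1 := by
      have := Nat.one_lt_pow hk.ne' hQ1
      omega
    have h6 := Nat.le_of_dvd h5 h4
    have h7 : Q ^ f ≤ Q ^ k := by
      have := Nat.one_le_pow f Q (by omega)
      omega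
    exact (Nat.pow_le_pow_iff_right hQ1).1 h7
  have hord : orderOf σ = f := by
    apply le_antisymm
    · exact Nat.le_of_dvd hf0 (orderOf_dvd_of_pow_eq_one h1)
    · exact h2 _ (orderOf_pos σ) (pow_orderOf_eq_one σ)
  refine ⟨by rw [hord]; exact hcard, ?_⟩
  -- the stabilizer
  have hst : Nat.card (MulAction.stabilizer G P) = f := by
    apply le_antisymm
    · have hinj : Function.Injective (Ideal.Quotient.stabilizerHom P p G) := by
        rw [injective_iff_map_eq_one]
        intro g hg
        have h3 : (g : G) = 1 := by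
          apply hin
          intro x
          have h4 : Ideal.Quotient.stabilizerHom P p G g (Ideal.Quotient.mk P x) =
              Ideal.Quotient.mk P x := by
            rw [hg]; rfl
          rw [Ideal.Quotient.stabilizerHom_apply] at h4
          rw [← Ideal.Quotient.eq]
          exact h4
        exact Subtype.ext h3
      have h4 : Nat.card (MulAction.stabilizer G P) ≤ Nat.card ((B ⧸ P) ≃ₐ[A ⧸ p] (B ⧸ P)) :=
        Nat.card_le_card_of_injective _ hinj
      refine h4.trans ?_
      rw [Nat.card_eq_fintype_card]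
      exact AlgEquiv.card_le
    · have hmem : σ ∈ MulAction.stabilizer G P := by
        rw [MulAction.mem_stabilizer_iff]
        apply smul_eq_of_smul_le
        rw [Ideal.pointwise_smul_def, Ideal.map_le_iff_le_comap]
        intro x hx
        rw [Ideal.mem_comap]
        have h3 := hσ x
        have h4 : x ^ Q ∈ P := Ideal.pow_mem_of_mem P hx _ (by omega)
        have h5 := P.add_mem h3 h4
        rw [sub_add_cancel] at h5
        exact h5
      rw [← hord, ← Nat.card_zpowers]
      apply Nat.card_le_card_of_injective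
        (fun x : Subgroup.zpowers σ => (⟨x.1, (Subgroup.zpowers_le.2 hmem) x.2⟩ :
          MulAction.stabilizer G P))
      intro a b hab
      exact Subtype.ext (congrArg (fun z : MulAction.stabilizer G P => (z : G)) hab)
  have horb := Algebra.IsInvariant.orbit_eq_primesOver A B G p P
  have h3 := Nat.card_congr (MulAction.orbitProdStabilizerEquivGroup G P)
  rw [Nat.card_prod, hst, horb, Nat.card_coe_set_eq] at h3
  rw [hord]
  exact h3

end Pool.Agent.W164.RC
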