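import Pool.Agent.W164.RC.Unit
import Pool.Agent.W164.RC.Split

/-!
Splitting of the primes of `ℤ[i]` in the ray class field.
-/

set_option autoImplicit false

open NumberField IsDedekindDomain
open H385 (ZI RQ im1 chiZ FQs phiQ nrm)
open Pool.Agent.H304R2.EC.A1 (prim prim_one)

namespace Pool.Agent.W164.RC

section
variable {q : ZI} {K : Type} [Field K] [NumberField K] {ι : ZI →+* 𝓞 K}
  {art : (RQ q)ˣ →* (𝓞 K ≃+* 𝓞 K)}

theorem ray_card (hq : q ≠ 0) (h2 : two2 ∣ q) (H : IsRayClassField q K ι art) :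
    4 * Nat.card art.range = phiQ q := by
  have h1 := Subgroup.card_mul_index art.ker
  rw [Subgroup.index_ker, card_units_img hq h2 art.ker (fun u => by
    rw [MonoidHom.mem_ker]; exact H.kernel u)] at h1
  exact h1

theorem not_mem_both {v : HeightOneSpectrum (𝓞 K)} {a b : ZI} (hab : IsCoprime a b)
    (ha : ι a ∈ v.asIdeal) : ι b ∉ v.asIdeal := by
  intro hb
  obtain ⟨c, d, hcd⟩ := hab
  apply v.isPrime.ne_top
  rw [Ideal.eq_top_iff_one, ← map_one ι, ← hcd, map_add, map_mul, map_mul]
  exact v.asIdeal.add_mem (v.asIdeal.mul_mem_left _ ha) (v.asIdeal.mul_mem_left _ hb)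

theorem ray_order (h2 : two2 ∣ q) (H : IsRayClassField q K ι art)
    {z : ZI} (hz : prim z) (u : (RQ q)ˣ) (hu : (u : RQ q) = Ideal.Quotient.mk _ z) :
    orderOf (art u) = orderOf u := by
  rw [orderOf_eq_orderOf_iff]
  intro n
  constructor
  · intro h
    rw [← map_pow] at h
    obtain ⟨e, he⟩ := (H.kernel _).1 h
    rw [Units.val_pow_eq_pow_val, hu, ← map_pow, Ideal.Quotient.eq, Ideal.mem_span_singleton] at he
    have h3 := prim_unit h2 (prim_pow hz n) (unit_norm e) he
    ext
    rw [Units.val_pow_eq_pow_val, hu, ← map_pow, Units.val_one,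
      ← map_one (Ideal.Quotient.mk (Ideal.span {q})), Ideal.Quotient.eq, Ideal.mem_span_singleton,
      ← h3]
    exact he
  · intro h
    rw [← map_pow, h, map_one]

theorem ray_split (hq : q ≠ 0) (h2 : two2 ∣ q) (H : IsRayClassField q K ι art)
    {z : ZI} (hz : prim z) (hzp : Prime z) (u : (RQ q)ˣ)
    (hu : (u : RQ q) = Ideal.Quotient.mk _ z) :
    (∀ v : HeightOneSpectrum (𝓞 K), ι z ∈ v.asIdeal →
      Ideal.absNorm v.asIdeal = nrm z ^ orderOf u) ∧
    4 * (Nat.card {v : HeightOneSpectrum (𝓞 K) // ι z ∈ v.asIdeal} * orderOf u) = phiQ q := by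
  classical
  have hfq := H385.he1_finite hq
  have hfu : Finite (RQ q)ˣ := inferInstance
  have hfG : Finite art.range := Finite.of_surjective art.rangeRestrict art.rangeRestrict_surjective
  letI : Algebra ZI (𝓞 K) := ι.toAlgebra
  have halg : ∀ a : ZI, algebraMap ZI (𝓞 K) a = ι a := fun _ => rfl
  have hgi : ∀ (g : art.range) (a : ZI), g • (ι a) = ι a := by
    rintro ⟨g, w, rfl⟩ a
    exact (H.invariants (ι a)).2 ⟨a, rfl⟩ w
  have hcomm : SMulCommClass art.range ZI (𝓞 K) := by
    constructor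
    intro g a x
    rw [Algebra.smul_def, Algebra.smul_def, halg, smul_mul', hgi]
  have hinv : Algebra.IsInvariant ZI (𝓞 K) art.range := by
    constructor
    intro b hb
    obtain ⟨a, ha⟩ := (H.invariants b).1 (fun w => hb ⟨art w, w, rfl⟩)
    exact ⟨a, ha⟩
  have hzirr := hzp.irreducible
  have hz0 : z ≠ 0 := hzp.ne_zero
  have hmax : (Ideal.span {z}).IsMaximal := PrincipalIdealRing.isMaximal_of_irreducible hzirr
  have hfz : Finite (ZI ⧸ Ideal.span {z}) := H385.he1_finite hz0
  have hcop : IsCoprime z q := by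
    obtain ⟨w, hw⟩ := Ideal.Quotient.mk_surjective ((u⁻¹ : (RQ q)ˣ) : RQ q)
    have h3 : (u : RQ q) * ((u⁻¹ : (RQ q)ˣ) : RQ q) = 1 := u.mul_inv
    rw [hu, ← hw, ← map_mul, ← map_one (Ideal.Quotient.mk (Ideal.span {q})), Ideal.Quotient.eq,
      Ideal.mem_span_singleton] at h3
    obtain ⟨c, hc⟩ := h3
    exact ⟨w, -c, by linear_combination hc⟩
  have hcardz : Nat.card (ZI ⧸ Ideal.span {z}) = nrm z := H385.H10.card_RQ z
  -- one place
  have key : ∀ v : HeightOneSpectrum (𝓞 K), ι z ∈ v.asIdeal →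
      Ideal.absNorm v.asIdeal = nrm z ^ orderOf u ∧
      ((Ideal.span {z} : Ideal ZI).primesOver (𝓞 K)).ncard * orderOf u = Nat.card art.range := by
    intro v hv
    have hvmax : v.asIdeal.IsMaximal := v.isPrime.isMaximal v.ne_bot
    have hfv : Finite (𝓞 K ⧸ v.asIdeal) := Ideal.finiteQuotientOfFreeOfNeBot v.asIdeal v.ne_bot
    have hover : v.asIdeal.LiesOver (Ideal.span {z}) := by
      constructor
      refine hmax.eq_of_le ?_ ?_
      · exact (inferInstance : (v.asIdeal.under ZI).IsPrime).ne_top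
      · rw [Ideal.span_singleton_le_iff_mem, Ideal.mem_comap]
        exact hv
    have hqv : ι q ∉ v.asIdeal := not_mem_both hcop hv
    have hσm : art u ∈ art.range := MonoidHom.mem_range.2 ⟨u, rfl⟩
    obtain ⟨σ, hσ⟩ : ∃ σ : art.range, (σ : 𝓞 K ≃+* 𝓞 K) = art u := ⟨⟨art u, hσm⟩, rfl⟩
    have h5 := split_abs art.range (Ideal.span {z}) v.asIdeal (by
      rintro ⟨g, w, rfl⟩ hg
      exact Subtype.ext (H.unramified v hqv w hg)) σ (by
      intro x
      rw [hcardz]
      have h6 : σ • x = art u x := by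
        rw [← hσ]; rfl
      rw [h6]
      exact H.frobenius z hzp u hu v hv x)
    rw [hcardz, ← Subgroup.orderOf_coe σ, hσ, ray_order h2 H hz u hu] at h5
    refine ⟨?_, h5.2⟩
    rw [Ideal.absNorm_apply, Submodule.cardQuot_apply]
    exact h5.1
  -- existence of a place
  have hex : ∃ v : HeightOneSpectrum (𝓞 K), ι z ∈ v.asIdeal := by
    have hιinj : Function.Injective ι := by
      rw [injective_iff_map_eq_zero]
      intro a ha
      by_contra h0
      -- the norm of a is a nonzero integer mapping to zero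
      have h3 : ι ((a.norm : ℤ) : ZI) = 0 := by
        rw [Zsqrtd.norm_eq_mul_conj, map_mul, ha, zero_mul]
      rw [map_intCast] at h3
      have h4 : a.norm = 0 := by exact_mod_cast h3
      exact h0 (GaussianInt.norm_eq_zero.1 h4)
    have hnu : ¬ IsUnit (ι z) := by
      intro hun
      obtain ⟨w, hw⟩ := hun.exists_right_inv
      obtain ⟨b, hb⟩ := (H.invariants w).1 (by
        intro t
        have h3 : art t (ι z) = ι z := (H.invariants (ι z)).2 ⟨z, rfl⟩ t
        have h4 : ι z * art t w = 1 := by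
          rw [← h3, ← map_mul, hw, map_one]
        exact hun.mul_left_cancel (h4.trans hw.symm))
      apply hzp.not_isUnit
      refine IsUnit.of_mul_eq_one b ?_
      apply hιinj
      rw [map_mul, map_one, hb]
      exact hw
    obtain ⟨M, hM, hzM⟩ := exists_max_ideal_of_mem_nonunits (mem_nonunits_iff.2 hnu)
    refine ⟨⟨M, hM.isPrime, ?_⟩, hzM⟩
    intro hbot
    rw [hbot, Ideal.mem_bot] at hzM
    exact hz0 (hιinj (by rw [hzM, map_zero]))
  obtain ⟨v0, hv0⟩ := hex
  refine ⟨fun v hv => (key v hv).1, ?_⟩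
  have h6 := (key v0 hv0).2
  have h7 : Nat.card {v : HeightOneSpectrum (𝓞 K) // ι z ∈ v.asIdeal} =
      ((Ideal.span {z} : Ideal ZI).primesOver (𝓞 K)).ncard := by
    rw [← Nat.card_coe_set_eq]
    refine Nat.card_congr
      { toFun := fun v => ⟨v.1.asIdeal, v.1.isPrime, ?_⟩
        invFun := fun P => ⟨⟨P.1, P.2.1, ?_⟩, ?_⟩
        left_inv := fun v => rfl
        right_inv := fun P => rfl }
    · constructor
      have := v.1.isPrime
      refine hmax.eq_of_le ?_ ?_
      · exact (inferInstance : (v.1.asIdeal.under ZI).IsPrime).ne_top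
      · rw [Ideal.span_singleton_le_iff_mem, Ideal.mem_comap]
        exact v.2
    · have h8 := P.2.2.over
      intro hbot
      have h9 : z ∈ P.1.under ZI := by
        rw [← h8]; exact Ideal.mem_span_singleton_self z
      rw [Ideal.mem_comap, hbot, Ideal.mem_bot, halg] at h9
      have h10 : v0.asIdeal.LiesOver (Ideal.span {z}) := ⟨by
        have := v0.isPrime
        refine hmax.eq_of_le ?_ ?_
        · exact (inferInstance : (v0.asIdeal.under ZI).IsPrime).ne_top
        · rw [Ideal.span_singleton_le_iff_mem, Ideal.mem_comap]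
          exact hv0⟩
      -- `z ≠ 0` maps to a nonzero element
      have h11 : ι ((z.norm : ℤ) : ZI) = 0 := by
        rw [Zsqrtd.norm_eq_mul_conj, map_mul, h9, zero_mul]
      rw [map_intCast] at h11
      have h12 : z.norm = 0 := by exact_mod_cast h11
      exact hz0 (GaussianInt.norm_eq_zero.1 h12)
    · have h8 := P.2.2.over
      have h9 : z ∈ P.1.under ZI := by
        rw [← h8]; exact Ideal.mem_span_singleton_self z
      rw [Ideal.mem_comap] at h9
      exact h9
  rw [h7, h6]
  exact ray_card hq h2 H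

end

end Pool.Agent.W164.RC
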