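import Pool.Agent.W164.RC.Imp
import Pool.Agent.W164.RC.Ray
import Pool.Agent.W164.RC.Chars
import Pool.Agent.H82R3.EK.Euler

/-!
The Euler product of `y² = x³ - x` over the ray class field.
-/

set_option autoImplicit false

open NumberField IsDedekindDomain Complex
open H385 (ZI RQ im1 chiZ FQs phiQ nrm)
open Pool.Agent.H304R2.EC.A1 (prim prim_one prim_star norm_def' gnorm_star)
open Pool.Agent.H304R3.HK (bb ee UH tc HC psi psi_apply tc_ne_zero tc_star_mul)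
open Pool.Agent.H921R2.TatePole (below deg nm nm_eq)
open Pool.Agent.H82R3.EK (luc luc_eq)

namespace Pool.Agent.W164.RC

/-- The Euler factor of `y² = x³ - x` at the prime `v` of `K`, a prime of good reduction:
`(1 - a_v (Nv)^(-s) + (Nv)^(1-2s))⁻¹`, where `a_v` is `Nv` minus the number of affine solutions
`(x, y)` of the equation over the residue field `𝓞 K / v`. -/
noncomputable def eulerFactor {K : Type} [Field K] [NumberField K] (s : ℂ)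
    (v : HeightOneSpectrum (𝓞 K)) : ℂ :=
  (1 - ((((Ideal.absNorm v.asIdeal : ℕ) : ℤ) -
          ((Nat.card {p : (𝓞 K ⧸ v.asIdeal) × (𝓞 K ⧸ v.asIdeal) //
            p.2 ^ 2 = p.1 ^ 3 - p.1} : ℕ) : ℤ) : ℤ) : ℂ)
          * ((Ideal.absNorm v.asIdeal : ℕ) : ℂ) ^ (-s)
      + ((Ideal.absNorm v.asIdeal : ℕ) : ℂ) ^ (1 - 2 * s))⁻¹

section
variable {K : Type} [Field K] [NumberField K]

theorem eulerFactor_eq (v : HeightOneSpectrum (𝓞 K)) (hv : (below v : ℕ) ≠ 2) (s : ℂ) :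
    eulerFactor s v = Pool.Agent.H82R3.EK.factor (Pool.Agent.H82R3.EK.crv 1 (𝓞 K)) s v := by
  have hv' : ¬ (below v : ℕ) ∣ 2 * 1 := by
    rw [mul_one, Nat.prime_dvd_prime_iff_eq (below v).2 Nat.prime_two]
    exact hv
  unfold Pool.Agent.H82R3.EK.factor
  rw [Pool.Agent.H82R3.EK.count_simp,
    if_neg (fun h => hv' ((Pool.Agent.H82R3.EK.Δ_mem_iff v).1 h)), one_mul]
  unfold eulerFactor
  have h : Nat.card {x : (𝓞 K ⧸ v.asIdeal) × (𝓞 K ⧸ v.asIdeal) //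
      x.2 ^ 2 = x.1 ^ 3 - ((1 : ℕ) : 𝓞 K ⧸ v.asIdeal) ^ 2 * x.1} =
      Nat.card {p : (𝓞 K ⧸ v.asIdeal) × (𝓞 K ⧸ v.asIdeal) // p.2 ^ 2 = p.1 ^ 3 - p.1} := by
    apply Nat.card_congr
    refine Equiv.subtypeEquivRight (fun x => ?_)
    rw [Nat.cast_one, one_pow, one_mul]
  rw [h]

/-- `Y = z N(z)^(-s)` -/
noncomputable def YY (p : ℕ) (s : ℂ) (z : ZI) : ℂ := tc z * ((p : ℂ) ^ (-s)) ^ dg p

theorem eulerFactor_z {p : Nat.Primes} (h2 : (p : ℕ) ≠ 2) {z : ZI} (hz : z ∈ Ip p)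
    (v : HeightOneSpectrum (𝓞 K)) (hv : below v = p) (f : ℕ)
    (hf : Ideal.absNorm v.asIdeal = nrm z ^ f) (s : ℂ) :
    eulerFactor s v = ((1 - YY p s z ^ f) * (1 - YY p s (star z) ^ f))⁻¹ := by
  have hv2 : (below v : ℕ) ≠ 2 := by rw [hv]; exact h2
  have hv' : ¬ (below v : ℕ) ∣ 2 * 1 := by
    rw [mul_one, Nat.prime_dvd_prime_iff_eq (below v).2 Nat.prime_two]
    exact hv2
  rw [eulerFactor_eq v hv2, Pool.Agent.H82R3.EK.factor_good v hv', hv]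
  have hdeg : deg v = dg p * f := by
    have h1 := (nm_eq v).1
    rw [hv] at h1
    unfold Pool.Agent.H921R2.TatePole.nm at h1
    rw [hf, (Ip_spec p.2 hz).2.2.1, ← pow_mul] at h1
    exact (Nat.pow_right_injective p.2.two_le h1).symm
  obtain ⟨α, β, h3, h4, h5, h6⟩ := aD_roots p.2 h2 hz
  have h7 := luc_eq h3 h4 (deg v)
  rw [h7]
  congr 1
  have h8 : ((((p : ℕ) : ℤ)) : ℂ) = α * β := h4.symm
  rw [h8, hdeg]
  unfold YY
  rw [← h5, ← h6]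
  ring

end

theorem norm_YY {p : ℕ} (hp : p.Prime) {z : ZI} (hz : z ∈ Ip p) {s : ℂ} (hs : 1 / 2 < s.re) :
    ‖YY p s z‖ < 1 := by
  unfold YY
  rw [norm_mul, norm_pow, Complex.norm_natCast_cpow_of_pos hp.pos, Complex.neg_re]
  have hp0 : (0 : ℝ) < p := by exact_mod_cast hp.pos
  have hp1 : (1 : ℝ) < p := by exact_mod_cast hp.one_lt
  have h1 : ‖tc z‖ = ((p : ℝ) ^ (1 / 2 : ℝ)) ^ dg p := by
    have h2 := tc_star_mul z
    have h3 := (Ip_spec hp hz).2.2.1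
    have h4 : ((z.norm : ℤ) : ℝ) = (p : ℝ) ^ dg p := by
      have h5 : z.norm = ((nrm z : ℕ) : ℤ) := (GaussianInt.abs_natCast_norm z).symm
      rw [h5, h3]
      push_cast
      rfl
    rw [h4] at h2
    have h6 : ((((p : ℝ) ^ (1 / 2 : ℝ)) ^ dg p)) ^ 2 = (p : ℝ) ^ dg p := by
      rw [← pow_mul, mul_comm, pow_mul, ← Real.rpow_natCast ((p : ℝ) ^ (1 / 2 : ℝ)) 2,
        ← Real.rpow_mul hp0.le]
      norm_num
    rw [← h6] at h2
    exact (pow_left_inj₀ (norm_nonneg _) (by positivity) (by norm_num)).1 h2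
  rw [h1, ← mul_pow, ← Real.rpow_add hp0]
  apply pow_lt_one₀ (by positivity) _ (dg_pos p)
  exact Real.rpow_lt_one_of_one_lt_of_neg hp1 (by linarith)

/-- the local factor of the character `χ` in terms of `Y` -/
theorem psi_YY {q : ZI} {d : ZI} {ψ : ZI →* ℂ} {χ : MulChar (RQ q) ℂ}
    (hval : ∀ a : ZI, IsCoprime a q → ψ a = chiZ q χ a)
    {p : ℕ} (hp : p.Prime) {z : ZI} (hz : z ∈ Ip p) (hzq : ¬ z ∣ q) (s : ℂ) :
    psi ψ z * ((p : ℂ) ^ (-(s - 1 / 2))) ^ dg p = chiZ q χ z * YY p s z := by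
  obtain ⟨-, hzp, h3, -⟩ := Ip_spec hp hz
  have hc : IsCoprime z q := (hzp.irreducible.coprime_iff_not_dvd).2 hzq
  rw [psi_apply ψ hzp.ne_zero, hval z hc]
  unfold YY
  have hp0 : (p : ℂ) ≠ 0 := Nat.cast_ne_zero.2 hp.ne_zero
  have hpr : (0 : ℝ) < p := by exact_mod_cast hp.pos
  have e1 : (p : ℂ) ^ (-(s - 1 / 2)) = (p : ℂ) ^ (-s) * (p : ℂ) ^ ((1 / 2 : ℂ)) := by
    rw [← Complex.cpow_add _ _ hp0]
    congr 1
    ring
  have e2 : ((‖tc z‖ : ℝ) : ℂ) = ((p : ℂ) ^ ((1 / 2 : ℂ))) ^ dg p := by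
    have h1 : ‖tc z‖ = ((p : ℝ) ^ (1 / 2 : ℝ)) ^ dg p := by
      have h2 := tc_star_mul z
      have h4 : ((z.norm : ℤ) : ℝ) = (p : ℝ) ^ dg p := by
        have h5 : z.norm = ((nrm z : ℕ) : ℤ) := (GaussianInt.abs_natCast_norm z).symm
        rw [h5, h3]
        push_cast
        rfl
      rw [h4] at h2
      have h6 : ((((p : ℝ) ^ (1 / 2 : ℝ)) ^ dg p)) ^ 2 = (p : ℝ) ^ dg p := by
        rw [← pow_mul, mul_comm, pow_mul, ← Real.rpow_natCast ((p : ℝ) ^ (1 / 2 : ℝ)) 2,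
          ← Real.rpow_mul hpr.le]
        norm_num
      rw [← h6] at h2
      exact (pow_left_inj₀ (norm_nonneg _) (by positivity) (by norm_num)).1 h2
    rw [h1, Complex.ofReal_pow, Complex.ofReal_cpow hpr.le]
    push_cast
    rfl
  have e3 : ((‖tc z‖ : ℝ) : ℂ) ≠ 0 := by
    rw [Complex.ofReal_ne_zero, norm_ne_zero_iff]
    exact tc_ne_zero hzp.ne_zero
  rw [e1, mul_pow, ← e2]
  field_simp

/-- product over the characters of the local factors at `p` -/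
theorem chi_side {q : ZI} (hq : q ≠ 0) (h2 : two2 ∣ q) (pr : MulChar (RQ q) ℂ → (ZI →* ℂ))
    (hval : ∀ χ ∈ FQs q, ∀ a : ZI, IsCoprime a q → pr χ a = chiZ q χ a)
    {p : ℕ} (hp : p.Prime) (f N : ZI → ℕ)
    (hf : ∀ z ∈ Ip p, ¬ z ∣ q → 0 < f z ∧ (∀ k : ℕ, q ∣ z ^ k - 1 ↔ f z ∣ k) ∧
      4 * (N z * f z) = phiQ q) {s : ℂ} (hs : 1 / 2 < s.re) :
    ∏ χ ∈ FQs q, epf q (psi (pr χ)) (s - 1 / 2) p = if p = 2 then 1 else
      ∏ᶠ z ∈ {z : ZI | z ∈ Ip p ∧ ¬ z ∣ q}, ((1 - YY p s z ^ f z) ^ N z)⁻¹ := by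
  classical
  unfold epf
  split_ifs with hp2
  · simp
  · have h3 : {z : ZI | z ∈ Ip p ∧ ¬ z ∣ q} = (((Ip p).filter (fun z => ¬ z ∣ q) : Finset ZI) :
        Set ZI) := by
      ext z
      simp
    rw [h3, finprod_mem_coe_finset, Finset.prod_comm]
    refine Finset.prod_congr rfl fun z hz => ?_
    rw [Finset.mem_filter] at hz
    obtain ⟨hz1, hz2⟩ := hz
    obtain ⟨hf0, hfk, hN⟩ := hf z hz1 hz2
    obtain ⟨hprim, hzp, -, -⟩ := Ip_spec hp hz1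
    have hc : IsCoprime z q := (hzp.irreducible.coprime_iff_not_dvd).2 hz2
    rw [← prod_FQ hq h2 hprim hc (f z) (N z) hf0 hfk hN _ (norm_YY hp hz1 hs),
      ← Finset.prod_inv_distrib]
    refine Finset.prod_congr rfl fun χ hχ => ?_
    rw [psi_YY (d := q) (hval χ hχ) hp hz1 hz2 s]

end Pool.Agent.W164.RC
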