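import Pool.Agent.W164.RC.Euler
import Pool.Agent.H304R3.HK.Fin

/-!
The Euler product of `y² = x³ - x` over the ray class field, second part.
-/

set_option autoImplicit false

open NumberField IsDedekindDomain Complex
open H385 (ZI RQ im1 chiZ FQs phiQ nrm)
open Pool.Agent.H304R2.EC.A1 (prim prim_one prim_star norm_def' gnorm_star)
open Pool.Agent.H304R3.HK (bb ee UH tc HC psi LH bH psi_apply tc_ne_zero tc_star_mul uh_psi goodH)
open Pool.Agent.H921R2.TatePole (below deg nm nm_eq nm_summable two_le_nm)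
open Pool.Agent.H82R3.EK (below_eq_of_mem factor_sub_bound)

namespace Pool.Agent.W164.RC

/-- order of `z` modulo `q` -/
noncomputable def fz (q z : ZI) : ℕ := orderOf (Ideal.Quotient.mk (Ideal.span {q}) z)

/-- number of primes above `z` in the ray class field -/
noncomputable def Nz (q z : ZI) : ℕ := phiQ q / (4 * fz q z)

theorem fz_dvd (q z : ZI) (k : ℕ) : q ∣ z ^ k - 1 ↔ fz q z ∣ k := by
  unfold fz
  rw [orderOf_dvd_iff_pow_eq_one, ← map_pow, ← map_one (Ideal.Quotient.mk (Ideal.span {q})),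
    Ideal.Quotient.eq, Ideal.mem_span_singleton]

theorem fz_unit (q z : ZI) (u : (RQ q)ˣ) (hu : (u : RQ q) = Ideal.Quotient.mk _ z) :
    orderOf u = fz q z := by
  unfold fz
  rw [← hu, orderOf_units]

theorem fz_pos {q z : ZI} (hq : q ≠ 0) (hc : IsCoprime z q) : 0 < fz q z := by
  have hfq := H385.he1_finite hq
  have hfu : Finite (RQ q)ˣ := inferInstance
  obtain ⟨u, hu⟩ := H385.he2_unit hc
  rw [← fz_unit q z u hu]
  exact orderOf_pos u

theorem star_dvd {a b : ZI} : star a ∣ star b ↔ a ∣ b := by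
  constructor
  · intro h
    have := Pool.Agent.H304R2.EC.A1.star_dvd_star h
    rwa [star_star, star_star] at this
  · exact Pool.Agent.H304R2.EC.A1.star_dvd_star

theorem fz_star (q z : ZI) : fz (star q) (star z) = fz q z := by
  have h : ∀ k : ℕ, fz (star q) (star z) ∣ k ↔ fz q z ∣ k := by
    intro k
    rw [← fz_dvd, ← fz_dvd]
    have e : star z ^ k - 1 = star (z ^ k - 1) := by
      rw [star_sub, star_pow, star_one]
    rw [e]
    exact star_dvd
  exact Nat.dvd_antisymm ((h _).2 dvd_rfl) ((h _).1 dvd_rfl)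

theorem phiQ_star (q : ZI) : phiQ (star q) = phiQ q := by
  unfold phiQ
  have hmap : (Ideal.span {star q} : Ideal ZI) =
      (Ideal.span {q} : Ideal ZI).map ((starRingAut : RingAut ZI) : ZI ≃+* ZI) := by
    rw [Ideal.map_span, Set.image_singleton]
    rfl
  exact (Nat.card_congr (Units.mapEquiv
    (Ideal.quotientEquiv (Ideal.span {q}) (Ideal.span {star q}) (starRingAut : RingAut ZI)
      hmap).toMulEquiv).toEquiv).symm

theorem Nz_star (q z : ZI) : Nz (star q) (star z) = Nz q z := by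
  unfold Nz
  rw [fz_star, phiQ_star]

section
variable {q : ZI} {K : Type} [Field K] [NumberField K] {ι : ZI →+* 𝓞 K}
  {art : (RQ q)ˣ →* (𝓞 K ≃+* 𝓞 K)}

theorem Nz_spec (hq : q ≠ 0) (h2 : two2 ∣ q) (H : IsRayClassField q K ι art)
    {p : ℕ} (hp : p.Prime) {z : ZI} (hz : z ∈ Ip p) (hzq : ¬ z ∣ q) :
    (∀ v : HeightOneSpectrum (𝓞 K), ι z ∈ v.asIdeal → Ideal.absNorm v.asIdeal = nrm z ^ fz q z) ∧
    Nat.card {v : HeightOneSpectrum (𝓞 K) // ι z ∈ v.asIdeal} = Nz q z ∧
    0 < fz q z ∧ 4 * (Nz q z * fz q z) = phiQ q := by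
  obtain ⟨hprim, hzp, -, -⟩ := Ip_spec hp hz
  have hc : IsCoprime z q := (hzp.irreducible.coprime_iff_not_dvd).2 hzq
  obtain ⟨u, hu⟩ := H385.he2_unit hc
  obtain ⟨h3, h4⟩ := ray_split hq h2 H hprim hzp u hu
  rw [fz_unit q z u hu] at h3 h4
  have hf := fz_pos hq hc
  have h5 : Nat.card {v : HeightOneSpectrum (𝓞 K) // ι z ∈ v.asIdeal} = Nz q z := by
    unfold Nz
    rw [← h4]
    have e : 4 * (Nat.card {v : HeightOneSpectrum (𝓞 K) // ι z ∈ v.asIdeal} * fz q z) =
        Nat.card {v : HeightOneSpectrum (𝓞 K) // ι z ∈ v.asIdeal} * (4 * fz q z) := by ring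
    rw [e, Nat.mul_div_cancel _ (by omega)]
  exact ⟨h3, h5, hf, by rw [← h5]; exact h4⟩

/-- product over the places above `p` -/
theorem fiber_K (hq : q ≠ 0) (h2 : two2 ∣ q) (H : IsRayClassField q K ι art) (p : Nat.Primes)
    (s : ℂ) :
    (open Classical in ∏ v : {v : HeightOneSpectrum (𝓞 K) // below v = p},
      (if ι q ∈ v.1.asIdeal then 1 else eulerFactor s v.1)) =
      if (p : ℕ) = 2 then 1 else ∏ᶠ z ∈ {z : ZI | z ∈ Ip p ∧ ¬ z ∣ q},
        (((1 - YY p s z ^ fz q z) ^ Nz q z)⁻¹ * ((1 - YY p s (star z) ^ fz q z) ^ Nz q z)⁻¹) := by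
  classical
  split_ifs with hp2
  · apply Finset.prod_eq_one
    rintro ⟨v, hv⟩ _
    rw [if_pos]
    have h3 := (nm_eq v).2.2
    rw [hv, hp2] at h3
    have h4 : ι ⟨1, 1⟩ ∈ v.asIdeal := by
      have h5 : ι ⟨1, 1⟩ * ι ⟨1, 1⟩ ∈ v.asIdeal := by
        have e : ((⟨1, 1⟩ : ZI) * ⟨1, 1⟩) = ⟨0, 1⟩ * ((2 : ℕ) : ZI) := by decide
        rw [← map_mul, e, map_mul, map_natCast]
        exact v.asIdeal.mul_mem_left _ h3
      rcases v.isPrime.mem_or_mem h5 with h | h <;> exact h
    obtain ⟨c, rfl⟩ := (show (⟨1, 1⟩ : ZI) ∣ two2 from ⟨2, by decide⟩).trans h2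
    rw [map_mul]
    exact v.asIdeal.mul_mem_right _ h4
  · have h3 : {z : ZI | z ∈ Ip p ∧ ¬ z ∣ q} = (((Ip p).filter (fun z => ¬ z ∣ q) : Finset ZI) :
        Set ZI) := by
      ext z
      simp
    rw [h3, finprod_mem_coe_finset]
    set J := (Ip p).filter (fun z => ¬ z ∣ q) with hJ
    have hcop : ∀ z ∈ J, IsCoprime z q := by
      intro z hz
      rw [hJ, Finset.mem_filter] at hz
      exact ((Ip_spec p.2 hz.1).2.1.irreducible.coprime_iff_not_dvd).2 hz.2
    rw [Finset.prod_ite, Finset.prod_const_one, one_mul]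
    have hU : (Finset.univ : Finset {v : HeightOneSpectrum (𝓞 K) // below v = p}).filter
        (fun v => ¬ ι q ∈ v.1.asIdeal) = J.biUnion (fun z =>
          (Finset.univ : Finset {v : HeightOneSpectrum (𝓞 K) // below v = p}).filter
            (fun v => ι z ∈ v.1.asIdeal)) := by
      ext v
      simp only [Finset.mem_filter, Finset.mem_univ, true_and, Finset.mem_biUnion]
      constructor
      · intro hv
        have h4 := (nm_eq v.1).2.2
        rw [v.2] at h4
        have := v.1.isPrime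
        obtain ⟨z, hz, hzv⟩ := Ip_exists p.2 hp2 ι v.1.asIdeal h4
        refine ⟨z, ?_, hzv⟩
        rw [hJ, Finset.mem_filter]
        refine ⟨hz, ?_⟩
        rintro ⟨c, rfl⟩
        apply hv
        rw [map_mul]
        exact v.1.asIdeal.mul_mem_right _ hzv
      · rintro ⟨z, hz, hzv⟩
        exact not_mem_both (hcop z hz) hzv
    rw [hU, Finset.prod_biUnion]
    · refine Finset.prod_congr rfl fun z hz => ?_
      have hz' := hz
      rw [hJ, Finset.mem_filter] at hz'
      obtain ⟨k1, k2, k3, k4⟩ := Nz_spec hq h2 H p.2 hz'.1 hz'.2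
      have h5 : ∀ v ∈ (Finset.univ : Finset {v : HeightOneSpectrum (𝓞 K) // below v = p}).filter
            (fun v => ι z ∈ v.1.asIdeal), eulerFactor s v.1 =
          ((1 - YY p s z ^ fz q z) * (1 - YY p s (star z) ^ fz q z))⁻¹ := by
        intro v hv
        rw [Finset.mem_filter] at hv
        exact eulerFactor_z hp2 hz'.1 v.1 v.2 _ (k1 v.1 hv.2) s
      rw [Finset.prod_congr rfl h5, Finset.prod_const]
      have h6 : ((Finset.univ : Finset {v : HeightOneSpectrum (𝓞 K) // below v = p}).filter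
            (fun v => ι z ∈ v.1.asIdeal)).card = Nz q z := by
        rw [← k2, ← Fintype.card_subtype, ← Nat.card_eq_fintype_card]
        refine Nat.card_congr
          { toFun := fun v => ⟨v.1.1, v.2⟩
            invFun := fun v => ⟨⟨v.1, ?_⟩, v.2⟩
            left_inv := fun v => rfl
            right_inv := fun v => rfl }
        apply below_eq_of_mem
        obtain ⟨c, hc⟩ := (Ip_spec p.2 hz'.1).2.2.2
        have h7 : (((p : ℕ)) : 𝓞 K) = ι z * ι c := by
          rw [← map_mul, ← hc, map_natCast]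
        rw [h7]
        exact v.1.asIdeal.mul_mem_right _ v.2
      rw [h6, inv_pow, mul_pow, mul_inv]
    · intro z hz w hw hzw
      rw [Function.onFun, Finset.disjoint_left]
      intro v hv hv'
      rw [Finset.mem_filter] at hv hv'
      have hz' := Finset.mem_coe.1 hz
      have hw' := Finset.mem_coe.1 hw
      rw [hJ, Finset.mem_filter] at hz' hw'
      exact not_mem_both (Ip_coprime p.2 hz'.1 hw'.1 hzw) hv.2 hv'.2

theorem two_dvd_star (h2 : two2 ∣ q) : two2 ∣ star q := by
  have h3 := Pool.Agent.H304R2.EC.A1.star_dvd_star h2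
  exact (show two2 ∣ star two2 from ⟨⟨0, -1⟩, by decide⟩).trans h3

/-- the entire function attached to `q` -/
noncomputable def FE (pr : (q : ZI) → MulChar (RQ q) ℂ → (ZI →* ℂ)) (q : ZI) (s : ℂ) : ℂ :=
  ∏ χ ∈ FQs q, (LH (pr q χ) s * Cq q (psi (pr q χ)) s)

/-- product over the characters -/
theorem hasProd_FE (cd : (q : ZI) → MulChar (RQ q) ℂ → ZI)
    (pr : (q : ZI) → MulChar (RQ q) ℂ → (ZI →* ℂ))
    (hprim : ∀ q : ZI, q ≠ 0 → ∀ χ ∈ FQs q, cd q χ ∣ q ∧ HC (cd q χ) (pr q χ) ∧
      ∀ a : ZI, IsCoprime a q → pr q χ a = chiZ q χ a) {q : ZI} (hq : q ≠ 0) (h2 : two2 ∣ q)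
    {s : ℂ} (hs : 1 < s.re) :
    HasProd (fun p : Nat.Primes => ∏ χ ∈ FQs q, epf q (psi (pr q χ)) s p) (FE pr q s) := by
  obtain ⟨A, hA, hgood⟩ := goodH
  unfold FE
  apply hasProd_prod
  intro χ hχ
  obtain ⟨h1, h3, h4⟩ := hprim q hq χ hχ
  exact hasProd_epf hq h2 (uh_psi _ _ h3) (by linarith) ((hgood _ _ h3).2.1 s hs)

theorem hasProd_K (cd : (q : ZI) → MulChar (RQ q) ℂ → ZI)
    (pr : (q : ZI) → MulChar (RQ q) ℂ → (ZI →* ℂ))
    (hprim : ∀ q : ZI, q ≠ 0 → ∀ χ ∈ FQs q, cd q χ ∣ q ∧ HC (cd q χ) (pr q χ) ∧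
      ∀ a : ZI, IsCoprime a q → pr q χ a = chiZ q χ a)
    (hq : q ≠ 0) (h2 : two2 ∣ q) (H : IsRayClassField q K ι art) {s : ℂ} (hs : 3 / 2 < s.re) :
    HasProd (open Classical in fun v : HeightOneSpectrum (𝓞 K) =>
      if ι q ∈ v.asIdeal then 1 else eulerFactor s v)
      (FE pr q (s - 1 / 2) * FE pr (star q) (s - 1 / 2)) := by
  classical
  have hq' : star q ≠ 0 := fun h => hq (by rw [← star_star q, h, star_zero])
  have h2' := two_dvd_star h2
  have hre : 1 < (s - 1 / 2).re := by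
    have : (s - 1 / 2).re = s.re - 1 / 2 := by simp
    rw [this]; linarith
  have hs' : 1 / 2 < s.re := by linarith
  have h1 := (hasProd_FE cd pr hprim hq h2 hre).mul (hasProd_FE cd pr hprim hq' h2' hre)
  have h3 : ∀ p : Nat.Primes, (∏ χ ∈ FQs q, epf q (psi (pr q χ)) (s - 1 / 2) p) *
      (∏ χ ∈ FQs (star q), epf (star q) (psi (pr (star q) χ)) (s - 1 / 2) p) =
      ∏ v : {v : HeightOneSpectrum (𝓞 K) // below v = p},
        (if ι q ∈ v.1.asIdeal then 1 else eulerFactor s v.1) := by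
    intro p
    rw [fiber_K hq h2 H p s,
      chi_side hq h2 (pr q) (fun χ hχ => (hprim q hq χ hχ).2.2) p.2 (fz q) (Nz q)
        (fun z hz hzq => by
          obtain ⟨k1, k2, k3, k4⟩ := Nz_spec hq h2 H p.2 hz hzq
          exact ⟨k3, fz_dvd q z, k4⟩) hs',
      chi_side hq' h2' (pr (star q)) (fun χ hχ => (hprim _ hq' χ hχ).2.2) p.2 (fz (star q))
        (Nz (star q))
        (fun z hz hzq => by
          have hz' := star_mem_Ip p.2 hz
          have hzq' : ¬ star z ∣ q := fun h => hzq (by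
            rw [← star_star z]; exact star_dvd.2 h)
          obtain ⟨k1, k2, k3, k4⟩ := Nz_spec hq h2 H p.2 hz' hzq'
          have e1 := fz_star q (star z)
          have e2 := Nz_star q (star z)
          rw [star_star] at e1 e2
          refine ⟨by rw [e1]; exact k3, fz_dvd _ z, ?_⟩
          rw [e1, e2, phiQ_star]
          exact k4) hs']
    split_ifs with hp2
    · rw [one_mul]
    · have e3 : {z : ZI | z ∈ Ip p ∧ ¬ z ∣ q} = (((Ip p).filter (fun z => ¬ z ∣ q) : Finset ZI) :
          Set ZI) := by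
        ext z
        simp
      have e4 : {z : ZI | z ∈ Ip p ∧ ¬ z ∣ star q} =
          ((((Ip p).filter (fun z => ¬ z ∣ q)).image star : Finset ZI) : Set ZI) := by
        ext z
        simp only [Set.mem_ofPred_eq, Finset.coe_image, Set.mem_image, Finset.mem_coe,
          Finset.mem_filter]
        constructor
        · rintro ⟨hz, hzq⟩
          refine ⟨star z, ⟨star_mem_Ip p.2 hz, fun h => hzq ?_⟩, star_star z⟩
          rw [← star_star z]; exact star_dvd.2 h
        · rintro ⟨w, ⟨hw, hwq⟩, rfl⟩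
          exact ⟨star_mem_Ip p.2 hw, fun h => hwq (star_dvd.1 h)⟩
      rw [e3, e4, finprod_mem_coe_finset, finprod_mem_coe_finset, finprod_mem_coe_finset,
        Finset.prod_image (fun a _ b _ h => star_injective h), ← Finset.prod_mul_distrib]
      refine Finset.prod_congr rfl fun z _ => ?_
      rw [fz_star, Nz_star]
  simp_rw [h3] at h1
  have h4 : Multipliable (fun v : HeightOneSpectrum (𝓞 K) =>
      if ι q ∈ v.asIdeal then 1 else eulerFactor s v) := by
    have hsum := nm_summable (K := K) (x := s.re - 1 / 2) (by linarith)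
    have h5 : Summable (fun v : HeightOneSpectrum (𝓞 K) =>
        ‖(if ι q ∈ v.asIdeal then 1 else eulerFactor s v) - 1‖) := by
      refine Summable.of_norm_bounded_eventually (hsum.mul_left 6) ?_
      have h6 := hsum.tendsto_cofinite_zero.eventually (Iio_mem_nhds (by norm_num : (0 : ℝ) < 1 / 6))
      filter_upwards [h6] with v hv
      rw [norm_norm]
      split_ifs with hiq
      · rw [sub_self, norm_zero]
        positivity
      · have hv2 : (below v : ℕ) ≠ 2 := by
          intro hb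
          apply hiq
          have h7 := (nm_eq v).2.2
          rw [hb] at h7
          have h4 : ι ⟨1, 1⟩ ∈ v.asIdeal := by
            have h5 : ι ⟨1, 1⟩ * ι ⟨1, 1⟩ ∈ v.asIdeal := by
              have e : ((⟨1, 1⟩ : ZI) * ⟨1, 1⟩) = ⟨0, 1⟩ * ((2 : ℕ) : ZI) := by decide
              rw [← map_mul, e, map_mul, map_natCast]
              exact v.asIdeal.mul_mem_left _ h7
            rcases v.isPrime.mem_or_mem h5 with h | h <;> exact h
          obtain ⟨c, rfl⟩ := (show (⟨1, 1⟩ : ZI) ∣ two2 from ⟨2, by decide⟩).trans h2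
          rw [map_mul]
          exact v.asIdeal.mul_mem_right _ h4
        rw [eulerFactor_eq v hv2]
        exact factor_sub_bound v s hs (le_of_lt hv)
    have h7 := multipliable_one_add_of_summable h5
    refine h7.congr (fun v => ?_)
    ring
  rw [← (Equiv.sigmaFiberEquiv (below (K := K))).hasProd_iff]
  refine HasProd.sigma_of_hasProd h1 (fun p => ?_) ?_
  · exact hasProd_fintype _
  · exact (Equiv.sigmaFiberEquiv (below (K := K))).multipliable_iff.2 h4

end

end Pool.Agent.W164.RC
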