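import Pool.Agent.W164.RC.Count
import Pool.Agent.H385R5.HE11

/-!
The zeros of `L(E/K, s)` for the ray class fields `K` of `ℚ(i)`: Euler factors at the primes dividing
`q` omitted.
-/

set_option autoImplicit false

open Complex Filter Topology Set NumberField IsDedekindDomain
open H370 (zset mult NN Nd Ns)
open H385 (ZI RQ im1 chiZ FQs phiQ nrm)
open Pool.Agent.H82R3.EK (cnt cnt_prod NN_eq Ns_le strip line)
open Pool.Agent.H304R3.HK (tc HC LH aH psi uh_psi one_le_norm_tc goodH tc_star_mul)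

namespace Pool.Agent.W164.RC

/-- zeros with `Re s > 1/2`, `T < Im s ≤ 2T` -/
def zerosH (F : ℂ → ℂ) (T : ℝ) : Set ℂ :=
  {s : ℂ | 1 / 2 < s.re ∧ T < s.im ∧ s.im ≤ 2 * T ∧ F s = 0}

/-- the number of these zeros, with multiplicity -/
noncomputable def NH (F : ℂ → ℂ) (T : ℝ) : ℕ := ∑ᶠ s ∈ zerosH F T, analyticOrderNatAt F s

/-- the number of these zeros on `Re s = 1`, with multiplicity -/
noncomputable def NH₀ (F : ℂ → ℂ) (T : ℝ) : ℕ :=
  ∑ᶠ s ∈ {s : ℂ | s ∈ zerosH F T ∧ s.re = 1}, analyticOrderNatAt F s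

theorem order_shift (L : ℂ → ℂ) (s : ℂ) :
    analyticOrderNatAt (fun z => L (z - 1 / 2)) (s + 1 / 2) = analyticOrderNatAt L s := by
  have hg : AnalyticAt ℂ (fun z : ℂ => z - 1 / 2) (s + 1 / 2) := by fun_prop
  have hd : deriv (fun z : ℂ => z - 1 / 2) (s + 1 / 2) ≠ 0 := by
    simp
  have h := analyticOrderAt_comp_of_deriv_ne_zero (f := L) hg hd
  unfold analyticOrderNatAt
  have h2 : (fun z : ℂ => L (z - 1 / 2)) = L ∘ (fun z : ℂ => z - 1 / 2) := rfl
  rw [h2, h]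
  norm_num

theorem inj_shift : Function.Injective (fun s : ℂ => s + 1 / 2) := fun a b h => by
  simpa using h

section
variable {G : ℂ → ℂ} {T : ℝ} (hT : 1 ≤ T) (hG : ∀ z : ℂ, 1 ≤ z.re → 1 ≤ z.im → G z ≠ 0)
include hT hG

theorem mem_shift (s : ℂ) :
    s + 1 / 2 ∈ zerosH (fun z => G (z - 1 / 2)) T ↔ s ∈ strip T (2 * T) ∧ G s = 0 := by
  have h1 : (s + 1 / 2 : ℂ).re = s.re + 1 / 2 := by simp
  have h2 : (s + 1 / 2 : ℂ).im = s.im := by simp
  have h3 : s + 1 / 2 - 1 / 2 = s := by ring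
  constructor
  · rintro ⟨a, b, c, d⟩
    rw [h1] at a
    rw [h2] at b c
    simp only [h3] at d
    refine ⟨⟨by linarith, ?_, b, c⟩, d⟩
    by_contra hcon
    exact hG s (by linarith) (by linarith) d
  · rintro ⟨⟨a, b, c, d⟩, e⟩
    refine ⟨by rw [h1]; linarith, by rw [h2]; exact c, by rw [h2]; exact d, ?_⟩
    simp only [h3]
    exact e

theorem zeros_shift :
    zerosH (fun z => G (z - 1 / 2)) T = (fun s : ℂ => s + 1 / 2) '' {s | s ∈ strip T (2 * T) ∧ G s = 0} := by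
  ext s
  constructor
  · intro hs
    refine ⟨s - 1 / 2, ?_, by ring⟩
    refine (mem_shift hT hG _).1 ?_
    convert hs using 1
    ring
  · rintro ⟨t, ht, rfl⟩
    exact (mem_shift hT hG t).mpr ht

theorem N_shift : NH (fun z => G (z - 1 / 2)) T = cnt G (strip T (2 * T)) := by
  unfold NH cnt
  rw [zeros_shift hT hG, finsum_mem_image (inj_shift.injOn)]
  refine finsum_congr fun s => finsum_congr fun _ => ?_
  exact order_shift G s

theorem N₀_shift : NH₀ (fun z => G (z - 1 / 2)) T = cnt G (line T (2 * T)) := by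
  unfold NH₀ cnt
  have h : {s : ℂ | s ∈ zerosH (fun z => G (z - 1 / 2)) T ∧ s.re = 1} =
      (fun s : ℂ => s + 1 / 2) '' {s : ℂ | s ∈ line T (2 * T) ∧ G s = 0} := by
    ext s
    constructor
    · rintro ⟨h1, h2⟩
      rw [zeros_shift hT hG] at h1
      obtain ⟨t, ⟨⟨_, _, h3, h4⟩, h5⟩, rfl⟩ := h1
      refine ⟨t, ⟨⟨?_, h3, h4⟩, h5⟩, rfl⟩
      have h6 : (t + 1 / 2 : ℂ).re = t.re + 1 / 2 := by simp
      rw [h6] at h2
      linarith
    · rintro ⟨t, ⟨⟨h1, h3, h4⟩, h5⟩, rfl⟩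
      refine ⟨(mem_shift hT hG t).mpr ⟨⟨by rw [h1]; norm_num, by rw [h1]; norm_num, h3, h4⟩, h5⟩, ?_⟩
      have h6 : (t + 1 / 2 : ℂ).re = t.re + 1 / 2 := by simp
      rw [h6, h1]
      norm_num
  rw [h, finsum_mem_image (inj_shift.injOn)]
  refine finsum_congr fun s => finsum_congr fun _ => ?_
  exact order_shift G s

end

theorem norm_tc_star (q : ZI) : ‖tc (star q)‖ = ‖tc q‖ := by
  have h1 := tc_star_mul (star q)
  rw [Pool.Agent.H304R2.EC.A1.gnorm_star, ← tc_star_mul q] at h1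
  exact (pow_left_inj₀ (norm_nonneg _) (norm_nonneg _) (by norm_num)).1 h1

theorem main_final : ∃ (F : ZI → ℂ → ℂ) (C η : ℝ), 0 < η ∧ ∀ q : ZI, q ≠ 0 → two2 ∣ q →
    Differentiable ℂ (F q) ∧
    (∀ (K : Type) [Field K] [NumberField K] (ι : ZI →+* 𝓞 K)
      (art : (RQ q)ˣ →* (𝓞 K ≃+* 𝓞 K)), IsRayClassField q K ι art →
      4 * Nat.card art.range = phiQ q ∧
      ∀ s : ℂ, 3 / 2 < s.re → HasProd (open Classical in fun v : HeightOneSpectrum (𝓞 K) =>
        if ι q ∈ v.asIdeal then 1 else eulerFactor s v) (F q s)) ∧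
    ∀ T : ℝ, C * (1 + Real.sqrt (Real.log (Zsqrtd.norm q : ℝ))) ≤ T →
      T ≤ (Zsqrtd.norm q : ℝ) ^ η →
      (zerosH (F q) T).Finite ∧
      T * ((phiQ q : ℝ) / 2) ≤ (NH (F q) T : ℝ) ∧
      0.6725 * (NH (F q) T : ℝ) ≤ (NH₀ (F q) T : ℝ) := by
  classical
  obtain ⟨cd, pr, hp, C0, η, hC0, hη, Hm⟩ := H385.he_main
  have hprim : ∀ q : ZI, q ≠ 0 → ∀ χ ∈ FQs q, cd q χ ∣ q ∧ HC (cd q χ) (pr q χ) ∧
      ∀ a : ZI, IsCoprime a q → pr q χ a = chiZ q χ a :=
    fun q hq χ hχ => hp q hq χ (((H385.fq_finite q hq).2.2 χ).1 hχ)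
  obtain ⟨C1, hC1, Hl⟩ := fam_lower cd pr hprim
  obtain ⟨A, hA, hgood⟩ := goodH
  refine ⟨fun q s => FE pr q (s - 1 / 2) * FE pr (star q) (s - 1 / 2), max C0 C1, min η 1 / 2,
    by positivity, fun q hq h2 => ?_⟩
  have hq' : star q ≠ 0 := fun h => hq (by rw [← star_star q, h, star_zero])
  have hd1 := FE_diff cd pr hprim hq
  have hd2 := FE_diff cd pr hprim hq'
  refine ⟨?_, ?_, ?_⟩
  · exact (hd1.comp (by fun_prop)).mul (hd2.comp (by fun_prop))
  · intro K _ _ ι art H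
    exact ⟨ray_card hq h2 H, fun s hs => hasProd_K cd pr hprim hq h2 H hs⟩
  · intro T hT1 hT2
    have hQ1 : 1 ≤ ‖tc q‖ := one_le_norm_tc hq
    have hn : (Zsqrtd.norm q : ℝ) = ‖tc q‖ ^ 2 := (tc_star_mul q).symm
    have hlog : Real.log ‖tc q‖ ≤ Real.log (Zsqrtd.norm q : ℝ) := by
      rw [hn]
      exact Real.log_le_log (by linarith) (by nlinarith)
    have hsq := Real.sqrt_le_sqrt hlog
    have hs0 := Real.sqrt_nonneg (Real.log ‖tc q‖)
    have hC0' : C0 ≤ max C0 C1 := le_max_left _ _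
    have hC1' : C1 ≤ max C0 C1 := le_max_right _ _
    have hTa : C0 * (1 + Real.sqrt (Real.log ‖tc q‖)) ≤ T := by
      refine le_trans ?_ hT1
      exact mul_le_mul hC0' (by linarith) (by linarith) (by linarith)
    have hTb : C1 * (1 + Real.sqrt (Real.log ‖tc q‖)) ≤ T := by
      refine le_trans ?_ hT1
      exact mul_le_mul hC1' (by linarith) (by linarith) (by linarith)
    have hpow : (Zsqrtd.norm q : ℝ) ^ (min η 1 / 2) = ‖tc q‖ ^ (min η 1) := by
      rw [hn, ← Real.rpow_natCast, ← Real.rpow_mul (by linarith)]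
      congr 1
      push_cast
      ring
    have hTc : T ≤ ‖tc q‖ ^ η := by
      refine hT2.trans ?_
      rw [hpow]
      exact Real.rpow_le_rpow_of_exponent_le hQ1 (min_le_left _ _)
    have hTd : T ≤ ‖tc q‖ := by
      refine hT2.trans ?_
      rw [hpow]
      calc ‖tc q‖ ^ (min η 1) ≤ ‖tc q‖ ^ (1 : ℝ) :=
            Real.rpow_le_rpow_of_exponent_le hQ1 (min_le_right _ _)
        _ = ‖tc q‖ := Real.rpow_one _
    have hT0 : 1 ≤ T := by
      refine le_trans ?_ hTa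
      nlinarith
    have hst := norm_tc_star q
    -- non-vanishing
    have hne : ∀ q : ZI, q ≠ 0 → ∀ z : ℂ, 1 ≤ z.re → 1 ≤ z.im → FE pr q z ≠ 0 := by
      intro q hq z h1 h3
      unfold FE
      rw [Finset.prod_ne_zero_iff]
      intro χ hχ
      obtain ⟨b1, b2, b3⟩ := hprim q hq χ hχ
      exact mul_ne_zero ((hgood _ _ b2).2.2.2.nzr z h1 h3)
        (Cq_ne q (uh_psi _ _ b2) (by linarith))
    have hG : ∀ z : ℂ, 1 ≤ z.re → 1 ≤ z.im → FE pr q z * FE pr (star q) z ≠ 0 :=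
      fun z h1 h3 => mul_ne_zero (hne q hq z h1 h3) (hne _ hq' z h1 h3)
    obtain ⟨t1, t2, t3⟩ := tot_cnt cd pr hprim hq hT0
    have e1 := N_shift (G := fun z => FE pr q z * FE pr (star q) z) hT0 hG
    have e2 := N₀_shift (G := fun z => FE pr q z * FE pr (star q) z) hT0 hG
    have e3 := zeros_shift (G := fun z => FE pr q z * FE pr (star q) z) hT0 hG
    obtain ⟨a1, a2, -⟩ := Hm q T hq hTa hTc
    obtain ⟨b1, b2, -⟩ := Hm (star q) T hq' (by rw [hst]; exact hTa) (by rw [hst]; exact hTc)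
    have l1 := Hl q T hq hTb hTd
    have l2 := Hl (star q) T hq' (by rw [hst]; exact hTb) (by rw [hst]; exact hTd)
    have c1 := H385.fq_card q (by have := eight_le_nrm hq h2; omega)
    have c2 := H385.fq_card (star q) (by
      have := eight_le_nrm hq' (two_dvd_star h2); omega)
    rw [phiQ_star] at c2
    refine ⟨?_, ?_, ?_⟩
    · rw [e3]
      exact t3.image _
    · rw [e1, t1]
      push_cast
      rw [c1] at l1
      rw [c2] at l2
      linarith
    · rw [e1, e2, t1]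
      have t2' : ((∑ χ ∈ FQs q, Ns (LH (pr q χ)) T (2 * T) +
        ∑ χ ∈ FQs (star q), Ns (LH (pr (star q) χ)) T (2 * T) : ℕ) : ℝ) ≤
        ((cnt (fun z => FE pr q z * FE pr (star q) z) (line T (2 * T)) : ℕ) : ℝ) := by
        exact_mod_cast t2
      push_cast at t2' ⊢
      linarith

end Pool.Agent.W164.RC
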