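import Pool.Agent.H385R5.HE10A
import Pool.Agent.H304R2.EC.Mult
import Pool.Agent.W164.RC.Defs

/-!
Units and primary elements of `ℤ[i]`.
-/

set_option autoImplicit false

open H385 (ZI RQ im1 chiZ FQs phiQ nrm)
open Pool.Agent.H304R2.EC.A1 (prim prim_iff prim_mul prim_one prim_norm_odd prim_star eq_one_of_prim
  norm_def' re_mul' im_mul')

namespace Pool.Agent.W164.RC

/-- `2 + 2 i` -/
def two2 : ZI := ⟨2, 2⟩

theorem prim_iff_dvd (z : ZI) : prim z ↔ two2 ∣ z - 1 := by
  constructor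
  · rintro ⟨h1, h2⟩
    -- (z - 1) = (2 + 2i) (c + d i): 2 c - 2 d = re - 1, 2 c + 2 d = im
    refine ⟨⟨(z.re - 1 + z.im) / 4, (z.im - (z.re - 1)) / 4⟩, ?_⟩
    ext
    · rw [re_mul']
      simp only [two2, Zsqrtd.re_sub, Zsqrtd.re_one]
      omega
    · rw [im_mul']
      simp only [two2, Zsqrtd.im_sub, Zsqrtd.im_one]
      omega
  · rintro ⟨c, hc⟩
    have h1 := congrArg Zsqrtd.re hc
    have h2 := congrArg Zsqrtd.im hc
    rw [re_mul'] at h1
    rw [im_mul'] at h2
    simp only [two2, Zsqrtd.re_sub, Zsqrtd.re_one, Zsqrtd.im_sub, Zsqrtd.im_one] at h1 h2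
    constructor <;> omega

theorem prim_pow {z : ZI} (hz : prim z) (k : ℕ) : prim (z ^ k) := by
  induction k with
  | zero => rw [pow_zero]; exact prim_one
  | succ k ih => rw [pow_succ]; exact prim_mul ih hz

theorem unit_norm (e : ZIˣ) : (e : ZI).norm = 1 := by
  have h1 : (e : ZI).norm * ((e⁻¹ : ZIˣ) : ZI).norm = 1 := by
    rw [← Zsqrtd.norm_mul, Units.mul_inv]; simp
  have h2 := GaussianInt.norm_nonneg (e : ZI)
  rcases Int.eq_one_or_neg_one_of_mul_eq_one h1 with h | h
  · exact h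
  · omega

theorem unit_cases {e : ZI} (he : e.norm = 1) : e = 1 ∨ e = im1 ∨ e = im1 ^ 2 ∨ e = im1 ^ 3 := by
  rw [norm_def'] at he
  have h1 : e.re ^ 2 ≤ 1 := by nlinarith [sq_nonneg e.im]
  have h2 : e.im ^ 2 ≤ 1 := by nlinarith [sq_nonneg e.re]
  have h3 : -1 ≤ e.re ∧ e.re ≤ 1 := by constructor <;> nlinarith
  have h4 : -1 ≤ e.im ∧ e.im ≤ 1 := by constructor <;> nlinarith
  obtain ⟨a, b⟩ := e
  simp only at he h3 h4
  obtain ⟨h5, h6⟩ := h3
  obtain ⟨h7, h8⟩ := h4
  have ha : a = -1 ∨ a = 0 ∨ a = 1 := by omega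
  have hb : b = -1 ∨ b = 0 ∨ b = 1 := by omega
  rcases ha with rfl | rfl | rfl <;> rcases hb with rfl | rfl | rfl <;> simp at he <;> decide

theorem eight_le_nrm {q : ZI} (hq : q ≠ 0) (h2 : two2 ∣ q) : 8 ≤ nrm q := by
  have h := H385.he3_nrm h2 hq
  have e : nrm two2 = 8 := by decide
  omega

theorem not_dvd_small {q : ZI} (hq : q ≠ 0) (h2 : two2 ∣ q) {c : ZI} (hc : c ≠ 0)
    (hc' : nrm c < 8) : ¬ q ∣ c := by
  intro h
  have h1 := H385.he3_nrm h hc
  have h3 := eight_le_nrm hq h2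
  omega

/-- a primary element congruent to a unit modulo `q` is congruent to one -/
theorem prim_unit {q : ZI} (h2 : two2 ∣ q) {z : ZI} (hz : prim z) {e : ZI} (he : e.norm = 1)
    (h : q ∣ z - e) : e = 1 := by
  have h3 : two2 ∣ z - e := h2.trans h
  have h4 := (prim_iff_dvd z).1 hz
  have h5 : prim e := by
    rw [prim_iff_dvd]
    have : e - 1 = (z - 1) - (z - e) := by ring
    rw [this]
    exact dvd_sub h4 h3
  exact eq_one_of_prim h5 he

/-- the number of classes of units of `ℤ[i]` -/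
theorem card_units_img {q : ZI} (hq : q ≠ 0) (h2 : two2 ∣ q) (N : Subgroup (RQ q)ˣ)
    (hN : ∀ u : (RQ q)ˣ, u ∈ N ↔ ∃ e : ZIˣ, (u : RQ q) = Ideal.Quotient.mk _ (e : ZI)) :
    Nat.card N = 4 := by
  have hI : IsUnit (Ideal.Quotient.mk (Ideal.span {q}) im1) :=
    H385.he2_unit ⟨-im1, 0, by
      rw [zero_mul, add_zero]
      decide⟩
  obtain ⟨j, hj⟩ := hI
  have hj4 : j ^ 4 = 1 := by
    ext
    push_cast
    rw [hj, ← map_pow, H385.he2_im4, map_one]
  have hj2 : j ^ 2 ≠ 1 := by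
    intro h
    have h3 := congrArg (fun u : (RQ q)ˣ => (u : RQ q)) h
    simp only [Units.val_pow_eq_pow_val, Units.val_one] at h3
    rw [hj, ← map_pow, ← map_one (Ideal.Quotient.mk (Ideal.span {q})), Ideal.Quotient.eq,
      Ideal.mem_span_singleton] at h3
    exact not_dvd_small hq h2 (by decide) (by decide) h3
  have hord : orderOf j = 2 ^ (1 + 1) := by
    apply orderOf_eq_prime_pow
    · simpa using hj2
    · simpa using hj4
  have hz : N = Subgroup.zpowers j := by
    ext u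
    rw [hN]
    constructor
    · rintro ⟨e, he⟩
      have hu : ∀ k : ℕ, (e : ZI) = im1 ^ k → u ∈ Subgroup.zpowers j := by
        intro k hk
        have : u = j ^ k := by
          ext
          push_cast
          rw [he, hk, hj, map_pow]
        rw [this]
        exact Subgroup.pow_mem _ (Subgroup.mem_zpowers j) k
      rcases unit_cases (unit_norm e) with h | h | h | h
      · exact hu 0 (by rw [h, pow_zero])
      · exact hu 1 (by rw [h, pow_one])
      · exact hu 2 h
      · exact hu 3 h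
    · intro hu
      have hfq := H385.he1_finite hq
      have hfu : Finite (RQ q)ˣ := inferInstance
      rw [← mem_powers_iff_mem_zpowers] at hu
      obtain ⟨k, rfl⟩ := hu
      have hiu : IsUnit (im1 : ZI) := IsUnit.of_mul_eq_one (-im1) (by decide)
      obtain ⟨i0, hi0⟩ := hiu
      refine ⟨i0 ^ k, ?_⟩
      simp only [Units.val_pow_eq_pow_val]
      rw [hj, hi0, map_pow]
  rw [hz, Nat.card_zpowers, hord]
  norm_num

end Pool.Agent.W164.RC
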