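import Pool.Agent.H304R3.HK.LgB
import Pool.Agent.H304R3.HK.LamH
import Pool.Agent.H304R2.EC.Points
import Pool.Agent.H385R2.EcD4
import Pool.Agent.W164.RC.Unit
import Pool.Agent.W164.RC.EP

/-!
The primary Gaussian primes above a rational prime, and the local factors.
-/

set_option autoImplicit false

open H385 (ZI nrm)
open Pool.Agent.H304R2.EC (PS Sh Sh_inert PS_split)
open Pool.Agent.H304R2.EC.A1 (prim prim_iff prim_mul prim_one prim_norm_odd prim_star
  eq_one_of_prim norm_def' re_mul' im_mul' eq_of_dvd gnorm_star)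
open Pool.Agent.H304R3.HK (bb ee UH tc bb_zero bb_two_odd)
open Pool.Agent.H304R3.HK.M3 (In b_mul b_rec b_one b_odd h_neg)

namespace Pool.Agent.W164.RC

open Classical in
/-- the primary Gaussian primes dividing `p` (`p` odd) -/
noncomputable def Ip (p : ℕ) : Finset ZI :=
  if p % 4 = 1 then (PS p).image (fun t => (⟨t.1, t.2⟩ : ZI))
  else if p % 4 = 3 then {-(p : ZI)} else ∅

/-- the degree of the primes of `ℤ[i]` above `p` -/
def dg (p : ℕ) : ℕ := if p % 4 = 1 then 1 else 2

theorem Ip_one {p : ℕ} (hp : p.Prime) (h1 : p % 4 = 1) : ∃ x : ZI, x ≠ star x ∧ prim x ∧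
    x * star x = (p : ZI) ∧ nrm x = p ∧ Ip p = {x, star x} := by
  obtain ⟨a, b, hb0, hb, hab, hn, hPS⟩ := PS_split p hp h1
  refine ⟨⟨a, b⟩, ?_, ⟨hb, hab⟩, ?_, ?_, ?_⟩
  · intro h
    have := congrArg Zsqrtd.im h
    simp only [Zsqrtd.im_star] at this
    omega
  · ext
    · rw [re_mul']
      simp only [Zsqrtd.re_star, Zsqrtd.im_star, Zsqrtd.re_natCast]
      rw [← hn]; ring
    · rw [im_mul']
      simp only [Zsqrtd.re_star, Zsqrtd.im_star, Zsqrtd.im_natCast]
      ring
  · unfold nrm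
    rw [norm_def']
    simp only
    rw [hn]
    simp
  · unfold Ip
    rw [if_pos h1, hPS, Finset.image_insert, Finset.image_singleton]
    rfl

theorem Ip_three {p : ℕ} (h3 : p % 4 = 3) : Ip p = {-(p : ZI)} := by
  unfold Ip
  rw [if_neg (by omega), if_pos h3]

theorem prime_of_norm {z : ZI} {p : ℕ} (hp : p.Prime) (h : nrm z = p) : Prime z := by
  rw [← irreducible_iff_prime]
  constructor
  · intro hu
    obtain ⟨e, rfl⟩ := hu
    have := unit_norm e
    unfold nrm at h
    rw [this] at h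
    simp at h
    exact hp.one_lt.ne h
  · rintro a b rfl
    have h1 : a.norm.natAbs * b.norm.natAbs = p := by
      rw [← Int.natAbs_mul, ← Zsqrtd.norm_mul]; exact h
    have h2 : ∀ c : ZI, c.norm.natAbs = 1 → IsUnit c := by
      intro c hc
      exact Zsqrtd.norm_eq_one_iff.1 hc
    rcases (Nat.dvd_prime hp).1 (Dvd.intro _ h1) with h3 | h3
    · exact Or.inl (h2 a h3)
    · right
      apply h2
      rw [h3] at h1
      exact Nat.eq_of_mul_eq_mul_left hp.pos (by rw [h1, mul_one])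

theorem Ip_spec {p : ℕ} (hp : p.Prime) {z : ZI} (hz : z ∈ Ip p) :
    prim z ∧ Prime z ∧ nrm z = p ^ dg p ∧ z ∣ (p : ZI) := by
  have h4 : p % 4 = 1 ∨ p % 4 = 3 := by
    by_contra h
    unfold Ip at hz
    rw [if_neg (by omega), if_neg (by omega)] at hz
    simp at hz
  rcases h4 with h1 | h3
  · obtain ⟨x, -, hx, hxx, hn, hI⟩ := Ip_one hp h1
    rw [hI, Finset.mem_insert, Finset.mem_singleton] at hz
    have hd : dg p = 1 := by unfold dg; rw [if_pos h1]
    rw [hd, pow_one]
    have hns : nrm (star x) = p := by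
      unfold nrm at hn ⊢
      rw [gnorm_star]; exact hn
    rcases hz with rfl | rfl
    · exact ⟨hx, prime_of_norm hp hn, hn, ⟨star z, hxx.symm⟩⟩
    · exact ⟨prim_star hx, prime_of_norm hp hns, hns, ⟨x, by rw [← hxx]; ring⟩⟩
  · rw [Ip_three h3, Finset.mem_singleton] at hz
    have hd : dg p = 2 := by unfold dg; rw [if_neg (by omega)]
    have : Fact p.Prime := ⟨hp⟩
    subst hz
    refine ⟨?_, ?_, ?_, ?_⟩
    · unfold prim
      simp only [Zsqrtd.im_neg, Zsqrtd.im_natCast, Zsqrtd.re_neg, Zsqrtd.re_natCast]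
      omega
    · exact (GaussianInt.prime_of_nat_prime_of_mod_four_eq_three p h3).neg
    · rw [hd]
      unfold nrm
      rw [norm_def']
      simp only [Zsqrtd.im_neg, Zsqrtd.im_natCast, Zsqrtd.re_neg, Zsqrtd.re_natCast]
      simp [Int.natAbs_pow]
    · exact ⟨-1, by ring⟩

theorem star_mem_Ip {p : ℕ} (hp : p.Prime) {z : ZI} (hz : z ∈ Ip p) : star z ∈ Ip p := by
  have h4 : p % 4 = 1 ∨ p % 4 = 3 := by
    by_contra h
    unfold Ip at hz
    rw [if_neg (by omega), if_neg (by omega)] at hz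
    simp at hz
  rcases h4 with h1 | h3
  · obtain ⟨x, -, hx, hxx, hn, hI⟩ := Ip_one hp h1
    rw [hI, Finset.mem_insert, Finset.mem_singleton] at hz ⊢
    rcases hz with rfl | rfl
    · exact Or.inr rfl
    · exact Or.inl (star_star x)
  · rw [Ip_three h3, Finset.mem_singleton] at hz ⊢
    subst hz
    ext <;> simp

/-- every prime ideal above `p` contains an element of `Ip p` -/
theorem Ip_exists {p : ℕ} (hp : p.Prime) (h2 : p ≠ 2) {R : Type*} [CommRing R] (ι : ZI →+* R)
    (P : Ideal R) [P.IsPrime] (h : (p : R) ∈ P) : ∃ z ∈ Ip p, ι z ∈ P := by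
  have h4 : p % 4 = 1 ∨ p % 4 = 3 := by
    rcases hp.eq_two_or_odd with h | h
    · exact absurd h h2
    · omega
  rcases h4 with h1 | h3
  · obtain ⟨x, -, hx, hxx, hn, hI⟩ := Ip_one hp h1
    have h5 : ι x * ι (star x) ∈ P := by
      rw [← map_mul, hxx, map_natCast]; exact h
    rw [hI]
    rcases (inferInstance : P.IsPrime).mem_or_mem h5 with h6 | h6
    · exact ⟨x, by simp, h6⟩
    · exact ⟨star x, by simp, h6⟩
  · rw [Ip_three h3]
    refine ⟨-(p : ZI), by simp, ?_⟩
    rw [map_neg, map_natCast]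
    exact P.neg_mem h

/-- different elements of `Ip p` are coprime -/
theorem Ip_coprime {p : ℕ} (hp : p.Prime) {z w : ZI} (hz : z ∈ Ip p) (hw : w ∈ Ip p)
    (hne : z ≠ w) : IsCoprime z w := by
  obtain ⟨hz1, hz2, hz3, -⟩ := Ip_spec hp hz
  obtain ⟨hw1, hw2, hw3, -⟩ := Ip_spec hp hw
  rw [hz2.irreducible.coprime_iff_not_dvd]
  intro h
  apply hne
  refine eq_of_dvd hz1 hw1 ?_ h
  have h5 : z.norm.natAbs = w.norm.natAbs := by
    have : nrm z = nrm w := by rw [hz3, hw3]
    exact this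
  have h6 := GaussianInt.norm_nonneg z
  have h7 := GaussianInt.norm_nonneg w
  omega

/-- the local polynomial -/
theorem local_poly {h : ZI →* ℂ} (hh : UH h) {p : ℕ} (hp : p.Prime) (h2 : p ≠ 2) (X : ℂ) :
    1 - bb h p * X + ee h p * X ^ 2 = ∏ z ∈ Ip p, (1 - h z * X ^ dg p) := by
  have I : In h := ⟨bb_zero h hh.h0, fun k m hm => bb_two_odd h hh.hi k m hm⟩
  have h4 : p % 4 = 1 ∨ p % 4 = 3 := by
    rcases hp.eq_two_or_odd with h | h
    · exact absurd h h2
    · omega
  rcases h4 with h1 | h3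
  · obtain ⟨a, b, hb0, hb, hab, hn, hPS⟩ := PS_split p hp h1
    have hd : dg p = 1 := by unfold dg; rw [if_pos h1]
    have hne : (⟨a, b⟩ : ZI) ≠ ⟨a, -b⟩ := by
      intro h
      have := congrArg Zsqrtd.im h
      simp only at this
      omega
    have hI : Ip p = {(⟨a, b⟩ : ZI), ⟨a, -b⟩} := by
      unfold Ip
      rw [if_pos h1, hPS, Finset.image_insert, Finset.image_singleton]
    have hs : bb h p = h ⟨a, b⟩ + h ⟨a, -b⟩ := by
      rw [b_odd I p (by omega)]
      unfold Sh
      rw [hPS, Finset.sum_pair]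
      intro heq
      rw [Prod.mk.injEq] at heq
      omega
    have he : ee h p = h ⟨a, b⟩ * h ⟨a, -b⟩ := by
      unfold ee
      rw [if_neg h2, if_neg (by omega), ← map_mul]
      congr 1
      ext
      · rw [re_mul']
        simp only [Zsqrtd.re_natCast]
        rw [← hn]
        ring
      · rw [im_mul']
        simp only [Zsqrtd.im_natCast]
        ring
    rw [hI, Finset.prod_pair hne, hs, he, hd]
    ring
  · have hd : dg p = 2 := by unfold dg; rw [if_neg (by omega)]
    have hs : bb h p = 0 := by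
      rw [b_odd I p (by omega)]
      exact (Sh_inert h p hp h3 0).1
    have he : ee h p = - h (-(p : ZI)) := by
      unfold ee
      rw [if_neg h2, if_pos h3, h_neg hh]
    rw [Ip_three h3, Finset.prod_singleton, hs, he, hd]
    ring

/-- the local polynomial at two -/
theorem local_two {h : ZI →* ℂ} (hh : UH h) (X : ℂ) :
    1 - bb h 2 * X + ee h 2 * X ^ 2 = 1 - h ⟨1, 1⟩ * X := by
  have e1 : bb h 2 = h ⟨1, 1⟩ := by
    have := bb_two_odd h hh.hi 1 1 (by norm_num)
    rw [pow_one, pow_one, mul_one, Pool.Agent.H304R2.EC.Sh_one, mul_one] at this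
    exact this
  rw [e1]
  unfold ee
  rw [if_pos rfl]
  ring

/-- the Euler product of a Hecke series -/
theorem ep_hecke {h : ZI →* ℂ} (hh : UH h) (s F : ℂ)
    (hsum : HasSum (fun n : ℕ => bb h n * (n : ℂ) ^ (-s)) F) :
    HasProd (fun p : Nat.Primes =>
      (1 - bb h p * ((p : ℕ) : ℂ) ^ (-s) + ee h p * (((p : ℕ) : ℂ) ^ (-s)) ^ 2)⁻¹) F := by
  have I : In h := ⟨bb_zero h hh.h0, fun k m hm => bb_two_odd h hh.hi k m hm⟩
  exact ep_general (bb h) (ee h) I.z0 (b_one I) (b_mul I) (b_rec hh I) s F hsum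

theorem tc_mul (a b : ZI) : tc (a * b) = tc a * tc b := by
  unfold tc
  rw [re_mul', im_mul']
  push_cast
  linear_combination (-(a.im : ℂ) * b.im) * Complex.I_sq

theorem tc_star (a : ZI) : tc (star a) = (starRingEnd ℂ) (tc a) := by
  unfold tc
  simp

/-- Frobenius trace in terms of the Gaussian prime -/
theorem aD_roots {p : ℕ} (hp : p.Prime) (h2 : p ≠ 2) {z : ZI} (hz : z ∈ Ip p) :
    ∃ α β : ℂ, α + β = (H385.aD 1 p : ℤ) ∧ α * β = (p : ℤ) ∧ α ^ dg p = tc z ∧
      β ^ dg p = tc (star z) := by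
  have : Fact p.Prime := ⟨hp⟩
  have h4 : p % 4 = 1 ∨ p % 4 = 3 := by
    rcases hp.eq_two_or_odd with h | h
    · exact absurd h h2
    · omega
  rcases h4 with h1 | h3
  · obtain ⟨a, b, hb0, hb, hab, hn, hPS⟩ := PS_split p hp h1
    have hd : dg p = 1 := by unfold dg; rw [if_pos h1]
    have ha : H385.aD 1 p = 2 * a := by
      rw [H385.aD_one, Pool.Agent.H304R2.EC.aE_eq p hp h2]
      unfold Pool.Agent.H304R2.EC.an
      rw [hPS, Finset.sum_pair]
      · ring
      · intro heq
        rw [Prod.mk.injEq] at heq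
        omega
    have hz' : z = ⟨a, b⟩ ∨ z = ⟨a, -b⟩ := by
      unfold Ip at hz
      rw [if_pos h1, hPS, Finset.image_insert, Finset.image_singleton, Finset.mem_insert,
        Finset.mem_singleton] at hz
      exact hz
    have hre : z.re = a := by rcases hz' with rfl | rfl <;> rfl
    have him : z.im ^ 2 = b ^ 2 := by
      rcases hz' with rfl | rfl
      · rfl
      · simp
    refine ⟨tc z, tc (star z), ?_, ?_, ?_, ?_⟩
    · rw [ha, tc]
      unfold tc
      simp only [Zsqrtd.re_star, Zsqrtd.im_star, hre]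
      push_cast
      ring
    · unfold tc
      simp only [Zsqrtd.re_star, Zsqrtd.im_star, hre]
      have h5 : ((z.im : ℂ)) ^ 2 = (b : ℂ) ^ 2 := by exact_mod_cast congrArg (Int.cast : ℤ → ℂ) him
      have h6 : ((a : ℂ)) ^ 2 + (b : ℂ) ^ 2 = p := by exact_mod_cast congrArg (Int.cast : ℤ → ℂ) hn
      push_cast
      linear_combination h6 + h5 - (z.im : ℂ) ^ 2 * Complex.I_sq
    · rw [hd, pow_one]
    · rw [hd, pow_one]
  · have hd : dg p = 2 := by unfold dg; rw [if_neg (by omega)]
    rw [Ip_three h3, Finset.mem_singleton] at hz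
    obtain ⟨w, hw⟩ := IsAlgClosed.exists_pow_nat_eq (-(p : ℂ)) (n := 2) (by norm_num)
    have htc : tc z = -(p : ℂ) := by
      rw [hz]; unfold tc; simp
    have htc' : tc (star z) = -(p : ℂ) := by
      rw [tc_star, htc]; simp
    refine ⟨w, -w, ?_, ?_, ?_, ?_⟩
    · rw [H385.aD_one_three p h3]; simp
    · push_cast
      linear_combination -hw
    · rw [hd, htc]; exact hw
    · rw [hd, htc', neg_sq]; exact hw

end Pool.Agent.W164.RC
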