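import Pool.Agent.W164.RC.Gp

/-!
Removing the Euler factors at the primes dividing `q`.
-/

set_option autoImplicit false

open H385 (ZI nrm)
open Pool.Agent.H304R2.EC.A1 (norm_def' re_mul' im_mul')
open Pool.Agent.H304R3.HK (bb ee UH tc)

namespace Pool.Agent.W164.RC

open Classical in
/-- the Euler factors (inverted) at the primes dividing `q` -/
noncomputable def cp (q : ZI) (h : ZI →* ℂ) (s : ℂ) (p : ℕ) : ℂ :=
  if p = 2 then 1 - h ⟨1, 1⟩ * (p : ℂ) ^ (-s)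
  else ∏ z ∈ (Ip p).filter (fun z => z ∣ q), (1 - h z * ((p : ℂ) ^ (-s)) ^ dg p)

open Classical in
/-- the Euler factors at the primes not dividing `q` -/
noncomputable def epf (q : ZI) (h : ZI →* ℂ) (s : ℂ) (p : ℕ) : ℂ :=
  if p = 2 then 1
  else ∏ z ∈ (Ip p).filter (fun z => ¬ z ∣ q), (1 - h z * ((p : ℂ) ^ (-s)) ^ dg p)⁻¹

/-- the rational primes dividing `N(q)` -/
def Tq (q : ZI) : Finset Nat.Primes := (nrm q).primeFactors.subtype Nat.Prime

/-- the finite correction factor -/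
noncomputable def Cq (q : ZI) (h : ZI →* ℂ) (s : ℂ) : ℂ := ∏ p ∈ Tq q, cp q h s p

theorem one_sub_ne {w : ℂ} (hw : ‖w‖ < 1) : 1 - w ≠ 0 := by
  intro h
  have : w = 1 := by linear_combination -h
  rw [this] at hw
  simp at hw

theorem prime_cpow_lt {p : ℕ} (hp : p.Prime) {s : ℂ} (hs : 0 < s.re) : ‖(p : ℂ) ^ (-s)‖ < 1 := by
  rw [Complex.norm_natCast_cpow_of_pos hp.pos, Complex.neg_re]
  exact Real.rpow_lt_one_of_one_lt_of_neg (by exact_mod_cast hp.one_lt) (by linarith)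

theorem dg_pos (p : ℕ) : dg p ≠ 0 := by
  unfold dg
  split_ifs <;> norm_num

theorem fac_lt {h : ZI →* ℂ} (hh : UH h) {p : ℕ} (hp : p.Prime) {s : ℂ} (hs : 0 < s.re) (z : ZI)
    {k : ℕ} (hk : k ≠ 0) : ‖h z * ((p : ℂ) ^ (-s)) ^ k‖ < 1 := by
  rw [norm_mul, norm_pow]
  have h1 := hh.hb z
  have h2 : ‖(p : ℂ) ^ (-s)‖ ^ k < 1 := pow_lt_one₀ (norm_nonneg _) (prime_cpow_lt hp hs) hk
  calc ‖h z‖ * ‖(p : ℂ) ^ (-s)‖ ^ k ≤ 1 * ‖(p : ℂ) ^ (-s)‖ ^ k :=
        mul_le_mul_of_nonneg_right h1 (by positivity)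
    _ < 1 := by rwa [one_mul]

theorem cp_ne (q : ZI) {h : ZI →* ℂ} (hh : UH h) {p : ℕ} (hp : p.Prime) {s : ℂ} (hs : 0 < s.re) :
    cp q h s p ≠ 0 := by
  classical
  unfold cp
  split_ifs
  · apply one_sub_ne
    have := fac_lt hh hp hs ⟨1, 1⟩ (k := 1) one_ne_zero
    rwa [pow_one] at this
  · rw [Finset.prod_ne_zero_iff]
    intro z _
    exact one_sub_ne (fac_lt hh hp hs z (dg_pos p))

theorem Cq_ne (q : ZI) {h : ZI →* ℂ} (hh : UH h) {s : ℂ} (hs : 0 < s.re) : Cq q h s ≠ 0 := by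
  unfold Cq
  rw [Finset.prod_ne_zero_iff]
  intro p _
  exact cp_ne q hh p.2 hs

theorem cpow_diff {p : ℕ} (hp : p.Prime) : Differentiable ℂ (fun s : ℂ => (p : ℂ) ^ (-s)) := by
  intro s
  have hp0 : (p : ℂ) ≠ 0 := Nat.cast_ne_zero.2 hp.ne_zero
  exact (differentiableAt_id.neg).const_cpow (Or.inl hp0)

theorem Cq_diff (q : ZI) (h : ZI →* ℂ) : Differentiable ℂ (Cq q h) := by
  classical
  have h0 : Cq q h = fun s => ∏ p ∈ Tq q, cp q h s p := rfl
  rw [h0]
  apply Differentiable.fun_finsetProd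
  intro p _
  have h1 := cpow_diff p.2
  unfold cp
  split_ifs
  · exact (differentiable_const _).sub ((differentiable_const _).mul h1)
  · apply Differentiable.fun_finsetProd
    intro z _
    exact (differentiable_const _).sub ((differentiable_const _).mul (h1.pow _))

theorem cp_one {q : ZI} (h2 : two2 ∣ q) {p : ℕ} (hp : p.Prime) (hpq : ¬ p ∣ nrm q) (h : ZI →* ℂ)
    (s : ℂ) : cp q h s p = 1 := by
  classical
  have hdvd : ∀ a b : ZI, a ∣ b → nrm a ∣ nrm b := by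
    rintro a b ⟨c, rfl⟩
    unfold nrm
    rw [Zsqrtd.norm_mul, Int.natAbs_mul]
    exact dvd_mul_right _ _
  unfold cp
  split_ifs with hp2
  · exfalso
    apply hpq
    rw [hp2]
    exact (show 2 ∣ nrm two2 by decide).trans (hdvd _ _ h2)
  · rw [Finset.filter_false_of_mem, Finset.prod_empty]
    intro z hz hzq
    apply hpq
    obtain ⟨-, -, h3, -⟩ := Ip_spec hp hz
    have h4 := hdvd _ _ hzq
    rw [h3] at h4
    exact (dvd_pow_self p (dg_pos p)).trans h4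

theorem mem_Tq {q : ZI} (hq : q ≠ 0) (p : Nat.Primes) : p ∈ Tq q ↔ (p : ℕ) ∣ nrm q := by
  have h0 : p ∈ Tq q ↔ (p : ℕ) ∈ (nrm q).primeFactors := Finset.mem_subtype
  rw [h0, Nat.mem_primeFactors]
  constructor
  · intro h; exact h.2.1
  · intro h
    refine ⟨p.2, h, ?_⟩
    unfold nrm
    rw [Ne, Int.natAbs_eq_zero]
    exact fun h => hq (GaussianInt.norm_eq_zero.1 h)

theorem epf_eq (q : ZI) {h : ZI →* ℂ} (hh : UH h) {p : ℕ} (hp : p.Prime) {s : ℂ} (hs : 0 < s.re) :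
    (1 - bb h p * (p : ℂ) ^ (-s) + ee h p * ((p : ℂ) ^ (-s)) ^ 2)⁻¹ * cp q h s p =
      epf q h s p := by
  classical
  by_cases h2 : p = 2
  · subst h2
    have h3 := local_two hh (((2 : ℕ) : ℂ) ^ (-s))
    rw [h3]
    unfold epf cp
    rw [if_pos rfl, if_pos rfl]
    apply inv_mul_cancel₀
    have := cp_ne q hh hp hs
    unfold cp at this
    rw [if_pos rfl] at this
    exact this
  · rw [local_poly hh hp h2]
    unfold epf cp
    rw [if_neg h2, if_neg h2, ← Finset.prod_filter_mul_prod_filter_not (Ip p) (fun z => z ∣ q),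
      Finset.prod_inv_distrib]
    have h3 : ∏ z ∈ (Ip p).filter (fun z => z ∣ q), (1 - h z * ((p : ℂ) ^ (-s)) ^ dg p) ≠ 0 := by
      rw [Finset.prod_ne_zero_iff]
      intro z _
      exact one_sub_ne (fac_lt hh hp hs z (dg_pos p))
    have h4 : ∏ z ∈ (Ip p).filter (fun z => ¬ z ∣ q), (1 - h z * ((p : ℂ) ^ (-s)) ^ dg p) ≠ 0 := by
      rw [Finset.prod_ne_zero_iff]
      intro z _
      exact one_sub_ne (fac_lt hh hp hs z (dg_pos p))
    rw [mul_inv, mul_comm (∏ z ∈ (Ip p).filter (fun z => z ∣ q), _)⁻¹, mul_assoc,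
      inv_mul_cancel₀ h3, mul_one]

theorem hasProd_epf {q : ZI} (hq : q ≠ 0) (h2 : two2 ∣ q) {h : ZI →* ℂ} (hh : UH h) {s F : ℂ}
    (hs : 0 < s.re) (hsum : HasSum (fun n : ℕ => bb h n * (n : ℂ) ^ (-s)) F) :
    HasProd (fun p : Nat.Primes => epf q h s p) (F * Cq q h s) := by
  have h1 := ep_hecke hh s F hsum
  have h3 : HasProd (fun p : Nat.Primes => cp q h s p) (Cq q h s) := by
    unfold Cq
    apply hasProd_prod_of_ne_finset_one
    intro p hp
    rw [mem_Tq hq] at hp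
    exact cp_one h2 p.2 hp h s
  have h4 := h1.mul h3
  refine h4.congr_fun ?_ |> fun h => h
  intro p
  exact (epf_eq q hh p.2 hs).symm

end Pool.Agent.W164.RC
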